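import Pool.Agent.D0H40.TS.Tail

/-! Averages and almost all characters from the tail estimate. -/

set_option autoImplicit false

namespace Pool.Agent.D0H40.TS

open Finset MeasureTheory Filter Topology

/-- summation of a tail -/
theorem layer {N U v δ : ℝ} (τ : ℕ → ℝ) (hN : 0 ≤ N) (hU : 1 ≤ U) (hv : 0 ≤ v) (hδ : 0 < δ)
    (h1 : ∀ k, τ k ≤ N) (h2 : ∀ k : ℕ, v ≤ k → τ k ≤ U * (N * Real.exp (-(δ * k)))) (M : ℕ) :
    ∑ k ∈ range M, τ (k + 1) ≤ N * (v + Real.log U / δ + 1 + 1 / δ) := by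
  have hlU : 0 ≤ Real.log U := Real.log_nonneg hU
  set K : ℕ := ⌈v + Real.log U / δ⌉₊ with hK
  have hK1 : v + Real.log U / δ ≤ K := Nat.le_ceil _
  have hK2 : (K : ℝ) ≤ v + Real.log U / δ + 1 := (Nat.ceil_lt_add_one (by positivity)).le
  have hlUd : 0 ≤ Real.log U / δ := by positivity
  have hUK : U * Real.exp (-(δ * K)) ≤ 1 := by
    have h3 : Real.log U ≤ δ * K := by
      have h4 : Real.log U / δ ≤ K := by linarith
      rw [div_le_iff₀ hδ] at h4
      linarith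
    calc U * Real.exp (-(δ * K)) = Real.exp (Real.log U + -(δ * K)) := by
          rw [Real.exp_add, Real.exp_log (by linarith)]
      _ ≤ 1 := Real.exp_le_one_iff.2 (by linarith)
  -- more terms
  have hmax : ∑ k ∈ range M, τ (k + 1) ≤
      ∑ k ∈ range M, (if k < K then N else N * Real.exp (-(δ * ((k - K : ℕ) + 1 : ℝ)))) := by
    refine Finset.sum_le_sum fun k _ => ?_
    split_ifs with hk
    · exact h1 _
    · push Not at hk
      have h3 : v ≤ ((k + 1 : ℕ) : ℝ) := by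
        have : (K : ℝ) ≤ k := by exact_mod_cast hk
        push_cast
        linarith
      refine (h2 (k + 1) h3).trans ?_
      have e : -(δ * ((k + 1 : ℕ) : ℝ)) = -(δ * K) + -(δ * ((k - K : ℕ) + 1 : ℝ)) := by
        rw [Nat.cast_sub hk]
        push_cast
        ring
      rw [e, Real.exp_add]
      have h5 := Real.exp_pos (-(δ * ((k - K : ℕ) + 1 : ℝ)))
      calc U * (N * (Real.exp (-(δ * K)) * Real.exp (-(δ * ((k - K : ℕ) + 1 : ℝ)))))
          = (U * Real.exp (-(δ * K))) * (N * Real.exp (-(δ * ((k - K : ℕ) + 1 : ℝ)))) := by ring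
        _ ≤ 1 * (N * Real.exp (-(δ * ((k - K : ℕ) + 1 : ℝ)))) := by gcongr
        _ = _ := one_mul _
  have hext : ∑ k ∈ range M, (if k < K then N else N * Real.exp (-(δ * ((k - K : ℕ) + 1 : ℝ)))) ≤
      ∑ k ∈ range (K + M), (if k < K then N else N * Real.exp (-(δ * ((k - K : ℕ) + 1 : ℝ)))) := by
    refine Finset.sum_le_sum_of_subset_of_nonneg (Finset.range_subset_range.2 (by omega)) fun k _ _ => ?_
    split_ifs <;> positivity
  refine hmax.trans (hext.trans ?_)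
  rw [Finset.sum_range_add]
  have e1 : ∑ k ∈ range K, (if k < K then N else N * Real.exp (-(δ * ((k - K : ℕ) + 1 : ℝ)))) = K * N := by
    rw [Finset.sum_congr rfl (fun k hk => if_pos (mem_range.1 hk)), Finset.sum_const, card_range,
      nsmul_eq_mul]
  have e2 : ∑ k ∈ range M, (if K + k < K then N else N * Real.exp (-(δ * ((K + k - K : ℕ) + 1 : ℝ)))) =
      N * (Real.exp (-δ) * ∑ k ∈ range M, Real.exp (-δ) ^ k) := by
    rw [Finset.mul_sum, Finset.mul_sum]
    refine Finset.sum_congr rfl fun k _ => ?_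
    rw [if_neg (by omega), Nat.add_sub_cancel_left, ← pow_succ', ← Real.exp_nat_mul]
    congr 2
    push_cast
    ring
  rw [e1, e2]
  have hx0 : 0 < Real.exp (-δ) := Real.exp_pos _
  have hx1 : Real.exp (-δ) < 1 := by
    rw [Real.exp_lt_one_iff]
    linarith
  have h6 : ∑ j ∈ range M, Real.exp (-δ) ^ j ≤ (1 - Real.exp (-δ))⁻¹ :=
    sum_le_hasSum (range M) (fun n _ => by positivity) (hasSum_geometric_of_lt_one hx0.le hx1)
  have h7 : Real.exp (-δ) * (1 - Real.exp (-δ))⁻¹ ≤ 1 / δ := by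
    rw [← div_eq_mul_inv, div_le_div_iff₀ (by linarith) hδ]
    have h8 := Real.add_one_le_exp δ
    have h9 : Real.exp (-δ) * Real.exp δ = 1 := by
      rw [← Real.exp_add, neg_add_cancel, Real.exp_zero]
    nlinarith
  have h10 : N * (Real.exp (-δ) * ∑ k ∈ range M, Real.exp (-δ) ^ k) ≤ N * (1 / δ) := by
    refine mul_le_mul_of_nonneg_left (le_trans ?_ h7) hN
    exact mul_le_mul_of_nonneg_left h6 hx0.le
  have h11 : K * N ≤ N * (v + Real.log U / δ + 1) := by
    rw [mul_comm]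
    exact mul_le_mul_of_nonneg_left hK2 hN
  calc _ ≤ N * (v + Real.log U / δ + 1) + N * (1 / δ) := add_le_add h11 h10
    _ = _ := by ring

/-- the constant in the average -/
theorem avg_const {δ A B C' h : ℝ} (hδ : 0 < δ) (hA : 0 ≤ A) (hB : 0 ≤ B) (hC : 1 ≤ C') (hh : 0 < h) :
    ∃ K : ℝ, 0 < K ∧ ∀ (l T r : ℝ), 0 ≤ l → 0 ≤ T → 0 ≤ r → r ≤ 1 / 100 →
      700 * (h + 2) * r * (1 + l) + 1 + Real.log (C' * (2 + T) ^ A * (1 + l) ^ B) / δ + 1 + 1 / δ ≤
        K * (r * l + Real.log (1 + l) + Real.log (2 + T)) := by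
  refine ⟨700 * (h + 2) + 2 * (7 * (h + 2) + 2 + Real.log C' / δ + 1 / δ) + A / δ + B / δ, ?_, ?_⟩
  · have : 0 ≤ Real.log C' := Real.log_nonneg hC
    positivity
  intro l T r hl hT hr0 hr
  have hlC : 0 ≤ Real.log C' := Real.log_nonneg hC
  have h1l : (0 : ℝ) < 1 + l := by linarith
  have h2T : (0 : ℝ) < 2 + T := by linarith
  have hll : 0 ≤ Real.log (1 + l) := Real.log_nonneg (by linarith)
  have hl2 := Real.log_two_gt_d9
  have hlT : 1 / 2 ≤ Real.log (2 + T) := by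
    have : Real.log 2 ≤ Real.log (2 + T) := Real.log_le_log (by norm_num) (by linarith)
    linarith
  have e1 : Real.log (C' * (2 + T) ^ A * (1 + l) ^ B) = Real.log C' + A * Real.log (2 + T) +
      B * Real.log (1 + l) := by
    rw [Real.log_mul (by positivity) (by positivity), Real.log_mul (by positivity) (by positivity),
      Real.log_rpow h2T, Real.log_rpow h1l]
  rw [e1]
  set x : ℝ := Real.log (1 + l) with hx
  set y : ℝ := Real.log (2 + T) with hy
  set D : ℝ := 7 * (h + 2) + 2 + Real.log C' / δ + 1 / δ with hD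
  have hD0 : 0 ≤ D := by positivity
  have hrl : 0 ≤ r * l := by positivity
  have e2 : (Real.log C' + A * y + B * x) / δ = Real.log C' / δ + A / δ * y + B / δ * x := by
    field_simp
  rw [e2]
  have g1 : 700 * (h + 2) * r * (1 + l) ≤ 700 * (h + 2) * (r * l) + 7 * (h + 2) := by
    have e : 700 * (h + 2) * r * (1 + l) = 700 * (h + 2) * (r * l) + 700 * (h + 2) * r := by ring
    have : 700 * (h + 2) * r ≤ 700 * (h + 2) * (1 / 100) := by gcongr
    linarith
  have g2 : D ≤ 2 * D * y := by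
    have : D * (1 / 2) ≤ D * y := by gcongr
    linarith
  have hAδ : 0 ≤ A / δ := by positivity
  have hBδ : 0 ≤ B / δ := by positivity
  have g3 : 0 ≤ A / δ * (r * l + x) := by positivity
  have g4 : 0 ≤ B / δ * (r * l + y) := by positivity
  have g5 : 0 ≤ 2 * D * (r * l + x) := by positivity
  have g6 : 0 ≤ 700 * (h + 2) * (x + y) := by positivity
  have e3 : (700 * (h + 2) + 2 * D + A / δ + B / δ) * (r * l + x + y) =
      700 * (h + 2) * (r * l) + 2 * D * y + A / δ * y + B / δ * x + A / δ * (r * l + x) +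
      B / δ * (r * l + y) + 2 * D * (r * l + x) + 700 * (h + 2) * (x + y) := by ring
  rw [e3]
  have e4 : 7 * (h + 2) + 1 + Real.log C' / δ + 1 + 1 / δ = D := by
    rw [hD]
    ring
  linarith

/-- the thresholds -/
noncomputable def kj (K l : ℝ) (j : ℕ) : ℕ := ⌈K * (Real.log (1 + l) + ((j : ℝ) + 1) / 3 * Real.log 2)⌉₊

/-- the sum over the heights `2 ^ j` -/
theorem dyad {δ A B C' h : ℝ} (hδ : 0 < δ) (hA : 0 ≤ A) (hB : 0 ≤ B) (hC : 1 ≤ C') (hh : 0 < h) (a : ℝ) :
    ∃ K : ℝ, 0 < K ∧ ∀ (l N : ℝ) (τ : ℕ → ℝ → ℝ), 0 ≤ l → 0 ≤ N →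
      (∀ (T : ℝ) (k : ℕ), 0 ≤ T → 700 * (h + 2) * (1 / (100 * (1 + l))) * (1 + l) + 1 ≤ k →
        τ k T ≤ C' * (2 + T) ^ A * (1 + l) ^ B * (N * Real.exp (-(δ * k)))) →
      ∀ J : ℕ, ∑ j ∈ range J, τ (kj K l j) (2 ^ j) ≤ K * N / (1 + l) ^ a := by
  have hl2 := Real.log_two_gt_d9
  set K : ℝ := (B + |a|) / δ + 3 * (A + 1) / δ + 5 * (7 * (h + 2) + 1) + 2 * (C' * 3 ^ A) with hK
  have k1 : 0 ≤ (B + |a|) / δ := by positivity
  have k2 : 0 ≤ 3 * (A + 1) / δ := by positivity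
  have k3 : 0 ≤ 5 * (7 * (h + 2) + 1) := by positivity
  have k4 : 0 ≤ 2 * (C' * 3 ^ A) := by positivity
  have hK0 : 0 < K := by positivity
  have hKa : B + |a| ≤ δ * K := by
    have : (B + |a|) / δ ≤ K := by linarith
    rw [div_le_iff₀ hδ] at this
    linarith
  have hKb : 3 * (A + 1) ≤ δ * K := by
    have : 3 * (A + 1) / δ ≤ K := by linarith
    rw [div_le_iff₀ hδ] at this
    linarith
  have hKc : 5 * (7 * (h + 2) + 1) ≤ K := by linarith
  have hKd : 2 * (C' * 3 ^ A) ≤ K := by linarith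
  refine ⟨K, hK0, fun l N τ hl hN hτ J => ?_⟩
  have h1l : (1 : ℝ) ≤ 1 + l := by linarith
  have h1l0 : (0 : ℝ) < 1 + l := by linarith
  have hll : 0 ≤ Real.log (1 + l) := Real.log_nonneg h1l
  have hterm : ∀ j ∈ range J, τ (kj K l j) (2 ^ j) ≤ (C' * 3 ^ A * N / (1 + l) ^ a) * (1 / 2) ^ j := by
    intro j _
    have hk1 : K * (Real.log (1 + l) + ((j : ℝ) + 1) / 3 * Real.log 2) ≤ kj K l j := Nat.le_ceil _
    have hj0 : (0 : ℝ) ≤ j := Nat.cast_nonneg _
    have hge : 700 * (h + 2) * (1 / (100 * (1 + l))) * (1 + l) + 1 ≤ (kj K l j : ℝ) := by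
      have e : 700 * (h + 2) * (1 / (100 * (1 + l))) * (1 + l) = 7 * (h + 2) := by
        field_simp
        ring
      rw [e]
      refine le_trans ?_ hk1
      have g1 : 1 / 5 ≤ Real.log (1 + l) + ((j : ℝ) + 1) / 3 * Real.log 2 := by
        have : 1 / 3 * Real.log 2 ≤ ((j : ℝ) + 1) / 3 * Real.log 2 := by
          gcongr
          linarith
        linarith
      calc 7 * (h + 2) + 1 = 5 * (7 * (h + 2) + 1) * (1 / 5) := by ring
        _ ≤ K * (Real.log (1 + l) + ((j : ℝ) + 1) / 3 * Real.log 2) := by gcongr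
    refine (hτ (2 ^ j) (kj K l j) (by positivity) hge).trans ?_
    have g1 : (2 + (2 : ℝ) ^ j) ^ A ≤ 3 ^ A * (2 : ℝ) ^ (A * j) := by
      have g2 : (2 + (2 : ℝ) ^ j) ≤ 3 * 2 ^ j := by
        have : (1 : ℝ) ≤ 2 ^ j := one_le_pow₀ (by norm_num)
        linarith
      calc (2 + (2 : ℝ) ^ j) ^ A ≤ (3 * 2 ^ j) ^ A := Real.rpow_le_rpow (by positivity) g2 hA
        _ = 3 ^ A * ((2 : ℝ) ^ j) ^ A := Real.mul_rpow (by norm_num) (by positivity)
        _ = _ := by
            congr 1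
            rw [← Real.rpow_natCast, ← Real.rpow_mul (by norm_num), mul_comm]
    have g3 : Real.exp (-(δ * (kj K l j))) ≤ (1 + l) ^ (-(B + |a|)) * (2 : ℝ) ^ (-((A + 1) * j)) := by
      rw [Real.rpow_def_of_pos h1l0, Real.rpow_def_of_pos (by norm_num), ← Real.exp_add]
      apply Real.exp_le_exp.2
      have g4 : δ * (K * (Real.log (1 + l) + ((j : ℝ) + 1) / 3 * Real.log 2)) ≤ δ * (kj K l j) :=
        mul_le_mul_of_nonneg_left hk1 hδ.le
      have g5 : (B + |a|) * Real.log (1 + l) ≤ (δ * K) * Real.log (1 + l) := by gcongr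
      have g6 : 3 * (A + 1) * (((j : ℝ) + 1) / 3 * Real.log 2) ≤
          (δ * K) * (((j : ℝ) + 1) / 3 * Real.log 2) := by gcongr
      have g7 : (A + 1) * j * Real.log 2 ≤ 3 * (A + 1) * (((j : ℝ) + 1) / 3 * Real.log 2) := by
        have e : 3 * (A + 1) * (((j : ℝ) + 1) / 3 * Real.log 2) =
          (A + 1) * j * Real.log 2 + (A + 1) * Real.log 2 := by ring
        have : 0 ≤ (A + 1) * Real.log 2 := by positivity
        linarith
      have e1 : δ * (K * (Real.log (1 + l) + ((j : ℝ) + 1) / 3 * Real.log 2)) =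
        (δ * K) * Real.log (1 + l) + (δ * K) * (((j : ℝ) + 1) / 3 * Real.log 2) := by ring
      have e2 : Real.log (1 + l) * -(B + |a|) + Real.log 2 * -((A + 1) * (j : ℝ)) =
        -((B + |a|) * Real.log (1 + l) + (A + 1) * j * Real.log 2) := by ring
      rw [e2]
      linarith
    have g8 : (1 + l) ^ B * (1 + l) ^ (-(B + |a|)) ≤ 1 / (1 + l) ^ a := by
      rw [← Real.rpow_add h1l0, one_div, ← Real.rpow_neg h1l0.le]
      refine Real.rpow_le_rpow_of_exponent_le h1l ?_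
      have := le_abs_self a
      linarith
    have g9 : (2 : ℝ) ^ (A * j) * (2 : ℝ) ^ (-((A + 1) * j)) = (1 / 2) ^ j := by
      rw [← Real.rpow_add (by norm_num)]
      have : A * (j : ℝ) + -((A + 1) * j) = -(j : ℝ) := by ring
      rw [this, Real.rpow_neg (by norm_num), Real.rpow_natCast, one_div, inv_pow]
    calc C' * (2 + (2 : ℝ) ^ j) ^ A * (1 + l) ^ B * (N * Real.exp (-(δ * (kj K l j))))
        ≤ C' * (3 ^ A * (2 : ℝ) ^ (A * j)) * (1 + l) ^ B *
          (N * ((1 + l) ^ (-(B + |a|)) * (2 : ℝ) ^ (-((A + 1) * j)))) := by gcongr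
      _ = C' * 3 ^ A * N * ((1 + l) ^ B * (1 + l) ^ (-(B + |a|))) *
          ((2 : ℝ) ^ (A * j) * (2 : ℝ) ^ (-((A + 1) * j))) := by ring
      _ ≤ C' * 3 ^ A * N * (1 / (1 + l) ^ a) * ((2 : ℝ) ^ (A * j) * (2 : ℝ) ^ (-((A + 1) * j))) := by
          gcongr
      _ = _ := by
          rw [g9]
          ring
  refine (Finset.sum_le_sum hterm).trans ?_
  rw [← Finset.mul_sum]
  have h6 : ∑ j ∈ range J, (1 / 2 : ℝ) ^ j ≤ 2 := by
    have := sum_le_hasSum (range J) (fun n _ => by positivity)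
      (hasSum_geometric_of_lt_one (r := (1 / 2 : ℝ)) (by norm_num) (by norm_num))
    refine this.trans (le_of_eq (by norm_num))
  calc (C' * 3 ^ A * N / (1 + l) ^ a) * ∑ j ∈ range J, (1 / 2 : ℝ) ^ j
      ≤ (C' * 3 ^ A * N / (1 + l) ^ a) * 2 := by gcongr
    _ = (2 * (C' * 3 ^ A)) * N / (1 + l) ^ a := by ring
    _ ≤ K * N / (1 + l) ^ a := by gcongr

end Pool.Agent.D0H40.TS
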