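import Pool.Agent.D0H40.TS.Avg

/-! Families of twists by Dirichlet characters: from the tail estimate on average over all conductors to the
conductors `⌊α n ^ h⌋`. -/

set_option autoImplicit false

namespace Pool.Agent.D0H40.TS

open Finset MeasureTheory Filter Topology Complex

/-- The entire function `F` has at least `k` zeros, counted with multiplicity, in the disc with centre
`w` and radius `r`: it is `(s - z_1) ... (s - z_k) H(s)` with `H` entire and the `z_j` in the disc. -/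
def HasZeros (F : ℂ → ℂ) (k : ℕ) (w : ℂ) (r : ℝ) : Prop :=
  ∃ (z : ℕ → ℂ) (H : ℂ → ℂ), Differentiable ℂ H ∧ (∀ j < k, ‖z j - w‖ ≤ r) ∧
    ∀ s, F s = (∏ j ∈ Finset.range k, (s - z j)) * H s

lemma HasZeros.le {F : ℂ → ℂ} {k k' : ℕ} {w : ℂ} {r r' : ℝ} (h : HasZeros F k w r) (hk : k' ≤ k)
    (hr : r ≤ r') : HasZeros F k' w r' := by
  obtain ⟨z, H, h1, h2, h3⟩ := h
  refine ⟨z, fun s => (∏ j ∈ Ico k' k, (s - z j)) * H s, ?_, fun j hj => (h2 j (by omega)).trans hr,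
    fun s => ?_⟩
  · have h4 : Differentiable ℂ fun s : ℂ => ∏ j ∈ Ico k' k, (s - z j) := by fun_prop
    exact h4.mul h1
  · rw [h3 s, ← Finset.prod_range_mul_prod_Ico _ hk]
    ring

/-- the primitive characters with many zeros near a point `1/2 + it`, `|t| ≤ T` -/
def Near (L : (q : ℕ) → DirichletCharacter ℂ q → ℂ → ℂ) (k : ℕ) (T r : ℝ) (q : ℕ)
    (χ : DirichletCharacter ℂ q) : Prop :=
  ∃ t : ℝ, |t| ≤ T ∧ HasZeros (L q χ) k (1 / 2 + t * I) r

open Classical in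
/-- the numbers of these characters -/
noncomputable def cntF (M : ℕ) (L : (q : ℕ) → DirichletCharacter ℂ q → ℂ → ℂ) (q k : ℕ) (T r : ℝ) : ℕ :=
  if 2 ≤ q ∧ Nat.Coprime q M then {χ : DirichletCharacter ℂ q | χ.IsPrimitive ∧ Near L k T r q χ}.ncard
  else 0

theorem ncard_le {q : ℕ} (hq : 2 ≤ q) (S : Set (DirichletCharacter ℂ q)) : S.ncard ≤ q := by
  have : NeZero q := ⟨by omega⟩
  refine (Set.ncard_le_card _).trans ?_
  rw [DirichletCharacter.card_eq_totient_of_hasEnoughRootsOfUnity]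
  exact Nat.totient_le q

/-- the data of the tail estimate -/
theorem tailD_of {M b0 : ℕ} {C B : ℝ} {L : (q : ℕ) → DirichletCharacter ℂ q → ℂ → ℂ} (hC : 0 ≤ C)
    (hB : 0 ≤ B)
    (h : ∀ (Q : ℕ) (T r : ℝ) (k : ℕ), 1 ≤ Q → 0 ≤ T → r ≤ 1 / 100 → 600 * r * (1 + Real.log Q) ≤ k →
      ((∑ q ∈ (Icc 2 Q).filter (fun q => Nat.Coprime q M),
        {χ : DirichletCharacter ℂ q | χ.IsPrimitive ∧ Near L k T r q χ}.ncard : ℕ) : ℝ) ≤
        C * (2 + T) ^ b0 * (1 + Real.log Q) ^ B * ((Q : ℝ) ^ 2 * Real.exp (-(k : ℝ) / 500))) :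
    TailD b0 C B (cntF M L) where
  C0 := hC
  B0 := hB
  le q k T r := by
    unfold cntF
    split_ifs with hq
    · exact ncard_le hq.1 _
    · exact Nat.zero_le _
  mono q k k' T T' r r' hk hT hr := by
    unfold cntF
    split_ifs with hq
    · apply Set.ncard_le_ncard _ (Set.toFinite _)
      rintro χ ⟨h1, t, h2, h3⟩
      exact ⟨h1, t, h2.trans hT, h3.le hk hr⟩
    · exact le_rfl
  tail Q T r k hQ hT hr hk := by
    refine le_trans (le_of_eq ?_) (h Q T r k hQ hT hr hk)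
    congr 1
    rw [Finset.sum_filter]
    refine Finset.sum_congr rfl fun q hq => ?_
    unfold cntF
    rw [mem_Icc] at hq
    by_cases hc : Nat.Coprime q M
    · rw [if_pos ⟨hq.1, hc⟩, if_pos hc]
    · rw [if_neg (fun h => hc h.2), if_neg hc]

/-- layers -/
theorem layer_q (q : ℕ) (κ : DirichletCharacter ℂ q → ℕ) (Mx : ℕ)
    (hM : ∀ χ : DirichletCharacter ℂ q, χ.IsPrimitive → κ χ ≤ Mx) :
    ∑ᶠ χ ∈ {χ : DirichletCharacter ℂ q | χ.IsPrimitive}, (κ χ : ℝ) =
      ∑ k ∈ range Mx, ({χ : DirichletCharacter ℂ q | χ.IsPrimitive ∧ k + 1 ≤ κ χ}.ncard : ℝ) := by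
  classical
  rw [finsum_mem_eq_toFinset_sum]
  have h1 : ∀ χ ∈ ({χ : DirichletCharacter ℂ q | χ.IsPrimitive} : Set _).toFinset,
      (κ χ : ℝ) = ∑ k ∈ range Mx, if k + 1 ≤ κ χ then (1 : ℝ) else 0 := by
    intro χ hχ
    have h2 := hM χ (by simpa using hχ)
    rw [← Finset.sum_filter, Finset.sum_const, nsmul_eq_mul, mul_one]
    have h3 : (range Mx).filter (fun k => k + 1 ≤ κ χ) = range (κ χ) := by
      ext k
      rw [Finset.mem_filter, Finset.mem_range, Finset.mem_range]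
      omega
    rw [h3, Finset.card_range]
  rw [Finset.sum_congr rfl h1, Finset.sum_comm]
  refine Finset.sum_congr rfl fun k _ => ?_
  rw [← Finset.sum_filter, Finset.sum_const, nsmul_eq_mul, mul_one, Set.ncard_eq_toFinset_card']
  congr 2
  ext χ
  simp

/-- the conductor `q_n` -/
noncomputable def cond (α h : ℝ) (n : ℕ) : ℕ := ⌊α * (n : ℝ) ^ h⌋₊

/-- The sum over `N < n ≤ 2N`, `q_n ≥ 2` prime to `M`, of `1/q_n` times the number of the primitive
characters `χ` modulo `q_n` with the property `S q_n χ`. -/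
noncomputable def count (M : ℕ) (α h : ℝ) (N : ℕ) (S : (q : ℕ) → DirichletCharacter ℂ q → Prop) : ℝ :=
  ∑ n ∈ (Ioc N (2 * N)).filter (fun n => 2 ≤ cond α h n ∧ Nat.Coprime (cond α h n) M),
    ({χ : DirichletCharacter ℂ (cond α h n) | χ.IsPrimitive ∧ S (cond α h n) χ}.ncard : ℝ) / cond α h n

/-- The sum over `N < n ≤ 2N`, `q_n ≥ 2` prime to `M`, of `1/q_n` times the sum of `f q_n χ` over the primitive
characters `χ` modulo `q_n`. -/
noncomputable def sumOver (M : ℕ) (α h : ℝ) (N : ℕ) (f : (q : ℕ) → DirichletCharacter ℂ q → ℕ) : ℝ :=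
  ∑ n ∈ (Ioc N (2 * N)).filter (fun n => 2 ≤ cond α h n ∧ Nat.Coprime (cond α h n) M),
    (∑ᶠ χ ∈ {χ : DirichletCharacter ℂ (cond α h n) | χ.IsPrimitive}, (f (cond α h n) χ : ℝ)) / cond α h n

theorem count_near (M : ℕ) (α h : ℝ) (N : ℕ) (L : (q : ℕ) → DirichletCharacter ℂ q → ℂ → ℂ) (k : ℕ)
    (T r : ℝ) : count M α h N (Near L k T r) =
      ∑ n ∈ Ioc N (2 * N), (cntF M L (cond α h n) k T r : ℝ) / cond α h n := by
  unfold count
  rw [Finset.sum_filter]
  refine Finset.sum_congr rfl fun n _ => ?_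
  unfold cntF
  by_cases hc : 2 ≤ cond α h n ∧ Nat.Coprime (cond α h n) M
  · rw [if_pos hc, if_pos hc]
  · rw [if_neg hc, if_neg hc, Nat.cast_zero, zero_div]

theorem sumOver_le (M : ℕ) (α h : ℝ) (N : ℕ) (L : (q : ℕ) → DirichletCharacter ℂ q → ℂ → ℂ)
    (κ : (q : ℕ) → DirichletCharacter ℂ q → ℕ) (T r : ℝ)
    (hκ : ∀ (q : ℕ) (χ : DirichletCharacter ℂ q), 2 ≤ q → Nat.Coprime q M → χ.IsPrimitive →
      Near L (κ q χ) T r q χ) : ∃ Mx : ℕ, sumOver M α h N κ ≤
      ∑ k ∈ range Mx, ∑ n ∈ Ioc N (2 * N), (cntF M L (cond α h n) (k + 1) T r : ℝ) / cond α h n := by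
  classical
  refine ⟨∑ n ∈ Ioc N (2 * N), ∑ χ : DirichletCharacter ℂ (cond α h n), κ (cond α h n) χ, ?_⟩
  set Mx : ℕ := ∑ n ∈ Ioc N (2 * N), ∑ χ : DirichletCharacter ℂ (cond α h n), κ (cond α h n) χ with hMx
  rw [Finset.sum_comm]
  unfold sumOver
  rw [Finset.sum_filter]
  refine Finset.sum_le_sum fun n hn => ?_
  split_ifs with hc
  · rw [layer_q (cond α h n) (κ (cond α h n)) Mx fun χ _ => ?_, ← Finset.sum_div]
    · refine div_le_div_of_nonneg_right ?_ (Nat.cast_nonneg _)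
      refine Finset.sum_le_sum fun k _ => ?_
      unfold cntF
      rw [if_pos hc]
      have : {χ : DirichletCharacter ℂ (cond α h n) | χ.IsPrimitive ∧ k + 1 ≤ κ (cond α h n) χ}.ncard ≤
          {χ : DirichletCharacter ℂ (cond α h n) | χ.IsPrimitive ∧
            Near L (k + 1) T r (cond α h n) χ}.ncard := by
        apply Set.ncard_le_ncard _ (Set.toFinite _)
        rintro χ ⟨h1, h2⟩
        obtain ⟨t, h3, h4⟩ := hκ _ χ hc.1 hc.2 h1
        exact ⟨h1, t, h3, h4.le h2 le_rfl⟩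
      exact_mod_cast this
    · rw [hMx]
      have g1 : κ (cond α h n) χ ≤ ∑ χ : DirichletCharacter ℂ (cond α h n), κ (cond α h n) χ :=
        Finset.single_le_sum (f := fun χ => κ (cond α h n) χ) (fun _ _ => Nat.zero_le _) (mem_univ χ)
      exact g1.trans (Finset.single_le_sum
        (f := fun n => ∑ χ : DirichletCharacter ℂ (cond α h n), κ (cond α h n) χ)
        (fun _ _ => Nat.zero_le _) hn)
  · exact Finset.sum_nonneg fun k _ => by positivity

/-- heights and powers of two -/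
theorem pow_cover (t : ℝ) : ∃ j : ℕ, |t| ≤ 2 ^ j ∧
    ((j : ℝ) + 1) / 3 * Real.log 2 ≤ Real.log (2 + |t|) := by
  have hl2 : 0 < Real.log 2 := Real.log_pos (by norm_num)
  set m : ℝ := max 1 |t| with hm
  have hm1 : 1 ≤ m := le_max_left _ _
  have hm0 : 0 < m := by linarith
  have hlm : 0 ≤ Real.log m := Real.log_nonneg hm1
  set j : ℕ := ⌈Real.log m / Real.log 2⌉₊ with hj
  have h1 : Real.log m / Real.log 2 ≤ j := Nat.le_ceil _
  have h2 : (j : ℝ) ≤ Real.log m / Real.log 2 + 1 := (Nat.ceil_lt_add_one (by positivity)).le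
  have h3 : Real.log m ≤ j * Real.log 2 := by
    rwa [div_le_iff₀ hl2] at h1
  have h4 : (j : ℝ) * Real.log 2 ≤ Real.log m + Real.log 2 := by
    have := mul_le_mul_of_nonneg_right h2 hl2.le
    have e : (Real.log m / Real.log 2 + 1) * Real.log 2 = Real.log m + Real.log 2 := by
      field_simp
    linarith
  refine ⟨j, ?_, ?_⟩
  · refine (le_max_right 1 |t|).trans ?_
    rw [← hm]
    have e : (2 : ℝ) ^ j = Real.exp (j * Real.log 2) := by
      rw [Real.exp_nat_mul, Real.exp_log (by norm_num)]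
    rw [e]
    calc m = Real.exp (Real.log m) := (Real.exp_log hm0).symm
      _ ≤ _ := Real.exp_le_exp.2 h3
  · have h5 : Real.log m ≤ Real.log (2 + |t|) := by
      apply Real.log_le_log hm0
      exact max_le (by linarith [abs_nonneg t]) (by linarith)
    have h6 : Real.log 2 ≤ Real.log (2 + |t|) :=
      Real.log_le_log (by norm_num) (by linarith [abs_nonneg t])
    have e : ((j : ℝ) + 1) / 3 * Real.log 2 = (j * Real.log 2 + Real.log 2) / 3 := by ring
    rw [e]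
    linarith

/-- a cluster of zeros at some height -/
def Clust (L : (q : ℕ) → DirichletCharacter ℂ q → ℂ → ℂ) (K l : ℝ) (q : ℕ)
    (χ : DirichletCharacter ℂ q) : Prop :=
  ∃ (t : ℝ) (k : ℕ), K * (Real.log (1 + l) + Real.log (2 + |t|)) < k ∧
    HasZeros (L q χ) k (1 / 2 + t * I) (1 / (100 * (1 + l)))

theorem clust_le (M : ℕ) (α h : ℝ) (N : ℕ) (L : (q : ℕ) → DirichletCharacter ℂ q → ℂ → ℂ) {K l : ℝ}
    (hK : 0 ≤ K) : ∃ J : ℕ, count M α h N (Clust L K l) ≤
      ∑ j ∈ range J, ∑ n ∈ Ioc N (2 * N),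
        (cntF M L (cond α h n) (kj K l j) (2 ^ j) (1 / (100 * (1 + l))) : ℝ) / cond α h n := by
  classical
  have hch : ∀ (q : ℕ) (χ : DirichletCharacter ℂ q), ∃ j : ℕ, Clust L K l q χ →
      Near L (kj K l j) (2 ^ j) (1 / (100 * (1 + l))) q χ := by
    intro q χ
    by_cases hc : Clust L K l q χ
    · obtain ⟨t, k, h1, h2⟩ := hc
      obtain ⟨j, h3, h4⟩ := pow_cover t
      refine ⟨j, fun _ => ⟨t, h3, h2.le ?_ le_rfl⟩⟩
      refine Nat.ceil_le.2 (le_trans ?_ h1.le)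
      exact mul_le_mul_of_nonneg_left (by linarith) hK
    · exact ⟨0, fun h => absurd h hc⟩
  choose j hj using hch
  set J : ℕ := ∑ n ∈ Ioc N (2 * N), ∑ χ : DirichletCharacter ℂ (cond α h n), (j (cond α h n) χ + 1)
    with hJ
  refine ⟨J, ?_⟩
  rw [Finset.sum_comm]
  unfold count
  rw [Finset.sum_filter]
  refine Finset.sum_le_sum fun n hn => ?_
  split_ifs with hc
  · rw [← Finset.sum_div]
    refine div_le_div_of_nonneg_right ?_ (Nat.cast_nonneg _)
    have hsub : {χ : DirichletCharacter ℂ (cond α h n) | χ.IsPrimitive ∧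
        Clust L K l (cond α h n) χ} ⊆ ⋃ i ∈ range J, {χ : DirichletCharacter ℂ (cond α h n) |
          χ.IsPrimitive ∧ Near L (kj K l i) (2 ^ i) (1 / (100 * (1 + l))) (cond α h n) χ} := by
      rintro χ ⟨h1, h2⟩
      rw [Set.mem_iUnion₂]
      refine ⟨j _ χ, ?_, h1, hj _ χ h2⟩
      rw [mem_range, hJ]
      have g1 : j (cond α h n) χ + 1 ≤ ∑ χ : DirichletCharacter ℂ (cond α h n), (j (cond α h n) χ + 1) :=
        Finset.single_le_sum (f := fun χ => j (cond α h n) χ + 1) (fun _ _ => Nat.zero_le _) (mem_univ χ)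
      have g2 := Finset.single_le_sum
        (f := fun n => ∑ χ : DirichletCharacter ℂ (cond α h n), (j (cond α h n) χ + 1))
        (fun _ _ => Nat.zero_le _) hn
      exact lt_of_lt_of_le (Nat.lt_succ_self _) (g1.trans g2)
    have h1 := (Set.ncard_le_ncard hsub (Set.toFinite _)).trans
      (Finset.set_ncard_biUnion_le (range J) fun i => {χ : DirichletCharacter ℂ (cond α h n) |
          χ.IsPrimitive ∧ Near L (kj K l i) (2 ^ i) (1 / (100 * (1 + l))) (cond α h n) χ})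
    have h2 : ∀ i ∈ range J, {χ : DirichletCharacter ℂ (cond α h n) |
          χ.IsPrimitive ∧ Near L (kj K l i) (2 ^ i) (1 / (100 * (1 + l))) (cond α h n) χ}.ncard =
        cntF M L (cond α h n) (kj K l i) (2 ^ i) (1 / (100 * (1 + l))) := by
      intro i _
      unfold cntF
      rw [if_pos hc]
    rw [Finset.sum_congr rfl h2] at h1
    exact_mod_cast h1
  · exact Finset.sum_nonneg fun k _ => by positivity

/-- **the conductors `⌊α n ^ h⌋`** -/
theorem family {M b0 : ℕ} {C₀ B : ℝ} {L : (q : ℕ) → DirichletCharacter ℂ q → ℂ → ℂ}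
    (D : TailD b0 C₀ B (cntF M L)) {h c : ℝ} (hh : 0 < h) (hc0 : 0 < c) (hc1 : c ≤ 1) (hUS : US h c) :
    ∃ (δ A C K : ℝ) (Ka : ℝ → ℝ), 0 < δ ∧ ∀ᵐ α : ℝ, 0 < α → ∃ N₀ : ℕ, 3 ≤ N₀ ∧ ∀ N : ℕ, N₀ ≤ N →
      (∀ n ∈ Ioc N (2 * N), 2 ≤ cond α h n) ∧
      (∀ (T r : ℝ) (k : ℕ), 0 ≤ T → 0 ≤ r → r ≤ 1 / 100 →
        700 * (h + 2) * r * (1 + Real.log N) + 1 ≤ k →
        count M α h N (Near L k T r) ≤
          C * (2 + T) ^ A * (1 + Real.log N) ^ B * (N * Real.exp (-(δ * k)))) ∧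
      (∀ (T r : ℝ) (κ : (q : ℕ) → DirichletCharacter ℂ q → ℕ), 0 ≤ T → 0 ≤ r → r ≤ 1 / 100 →
        (∀ (q : ℕ) (χ : DirichletCharacter ℂ q), 2 ≤ q → Nat.Coprime q M → χ.IsPrimitive →
          Near L (κ q χ) T r q χ) →
        sumOver M α h N κ ≤ K * N * (r * Real.log N + Real.log (1 + Real.log N) + Real.log (2 + T))) ∧
      ∀ a : ℝ, count M α h N (Clust L (Ka a) (Real.log N)) ≤ Ka a * N / (1 + Real.log N) ^ a := by
  obtain ⟨δ, A, C', hδ0, hδ1, hA, hC', hae⟩ := sparse_tail hh hc0 hc1 hUS D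
  obtain ⟨K, hK0, hK⟩ := avg_const hδ0 hA D.B0 hC' hh
  choose Ka hKa0 hKa using fun a : ℝ => dyad hδ0 hA D.B0 hC' hh a
  refine ⟨δ, A, C', K, Ka, hδ0, ?_⟩
  filter_upwards [hae] with α hα hα0
  obtain ⟨N₀, hN3, hN⟩ := hα hα0
  refine ⟨N₀, hN3, fun N hNN => ?_⟩
  obtain ⟨g1, g2⟩ := hN N hNN
  have hNr : (3 : ℝ) ≤ (N : ℝ) := by exact_mod_cast hN3.trans hNN
  have hNr1 : (1 : ℝ) ≤ (N : ℝ) := le_trans (by norm_num) hNr
  have hl0 : 0 ≤ Real.log (N : ℝ) := Real.log_nonneg hNr1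
  refine ⟨g1, fun T r k hT hr0 hr hk => ?_, fun T r κ hT hr0 hr hκ => ?_, fun a => ?_⟩
  · rw [count_near]
    exact g2 T r k hT hr0 hr hk
  · obtain ⟨Mx, hMx⟩ := sumOver_le M α h N L κ T r hκ
    refine hMx.trans ?_
    have hU : 1 ≤ C' * (2 + T) ^ A * (1 + Real.log N) ^ B := by
      refine one_le_mul_of_one_le_of_one_le (one_le_mul_of_one_le_of_one_le hC' ?_) ?_
      · exact Real.one_le_rpow (by linarith) hA
      · exact Real.one_le_rpow (by linarith) D.B0
    have h1 := layer (N := (N : ℝ)) (U := C' * (2 + T) ^ A * (1 + Real.log N) ^ B)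
      (v := 700 * (h + 2) * r * (1 + Real.log N) + 1) (δ := δ)
      (fun k => ∑ n ∈ Ioc N (2 * N), (cntF M L (cond α h n) k T r : ℝ) / cond α h n)
      (Nat.cast_nonneg _) hU (by positivity) hδ0 (fun k => ?_) (fun k hk => ?_) Mx
    · have e : K * N * (r * Real.log N + Real.log (1 + Real.log N) + Real.log (2 + T)) =
          (N : ℝ) * (K * (r * Real.log N + Real.log (1 + Real.log N) + Real.log (2 + T))) := by ring
      rw [e]
      exact h1.trans (mul_le_mul_of_nonneg_left (hK _ _ _ hl0 hT hr0 hr) (Nat.cast_nonneg _))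
    · calc _ ≤ ∑ _n ∈ Ioc N (2 * N), (1 : ℝ) := Finset.sum_le_sum fun n _ => (D.frac _ _ _ _).2
        _ = N := by
            rw [Finset.sum_const, Nat.card_Ioc, nsmul_eq_mul, mul_one]
            congr 1
            omega
    · exact g2 T r k hT hr0 hr hk
  · obtain ⟨J, hJ⟩ := clust_le M α h N L (K := Ka a) (l := Real.log N) (hKa0 a).le
    refine hJ.trans ?_
    refine hKa a (Real.log N) N (fun k T => ∑ n ∈ Ioc N (2 * N),
      (cntF M L (cond α h n) k T (1 / (100 * (1 + Real.log N))) : ℝ) / cond α h n) hl0 (Nat.cast_nonneg _)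
      (fun T k hT hk => ?_) J
    refine g2 T _ k hT (by positivity) ?_ hk
    apply one_div_le_one_div_of_le (by norm_num)
    linarith

end Pool.Agent.D0H40.TS
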