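import Pool.Agent.D0H40.TS.Low2
import Pool.Agent.D0H91.US.App
import Pool.Agent.R399.TM.Avg

/-! The families of twists of cuspidal representations. -/

set_option autoImplicit false

namespace Pool.Agent.D0H40.TS

open Finset MeasureTheory Filter Topology Complex

/-- the universal sampling theorem (`Pool.Agent.D0H91.US.us_ae`) -/
theorem us_inst (h : ℝ) (hh : 0 < h) : ∃ c : ℝ, 0 < c ∧ c ≤ 1 ∧ US h c := by
  obtain ⟨c, hc0, hc1, hus⟩ := Pool.Agent.D0H91.US.us_ae h hh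
  refine ⟨c, hc0, by linarith, fun b hb => ?_⟩
  have h1 := hus c hc0.le le_rfl b (by
    filter_upwards [eventually_ge_atTop 1] with N hN j _ m _
    refine (hb j m).trans (Real.one_le_rpow ?_ hc0.le)
    exact_mod_cast hN)
  exact h1

theorem dv_iff (F : ℂ → ℂ) (k : ℕ) (t r : ℝ) :
    Pool.Agent.R399.TM.Dv F k (Pool.Agent.R399.TW.pt (1 / 2) t) r ↔ HasZeros F k (1 / 2 + t * I) r := by
  have e : Pool.Agent.R399.TW.pt (1 / 2) t = 1 / 2 + t * I := by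
    unfold Pool.Agent.R399.TW.pt
    push_cast
    rfl
  rw [e]
  exact Iff.rfl

theorem tail_inst {m M : ℕ} (hm : m ≤ 3) {L : (q : ℕ) → DirichletCharacter ℂ q → ℂ → ℂ}
    (h : Pool.Agent.R399.TM.Fo m M L) : ∃ C B : ℝ, TailD (3 * m + 1) C B (cntF M L) := by
  obtain ⟨C, B, hC, hB, ht⟩ := Pool.Agent.R399.TM.tail hm h
  refine ⟨C, B, tailD_of hC hB fun Q T r k hQ hT hr hk => ?_⟩
  have h1 := ht Q T r k hQ hT hr hk
  refine le_trans (le_of_eq ?_) h1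
  unfold Pool.Agent.R399.TW.count
  congr 1
  refine Finset.sum_congr rfl fun q _ => ?_
  congr 1
  ext χ
  simp only [Near, Set.mem_ofPred_eq, dv_iff]

theorem of_order {F : ℂ → ℂ} (hF : Differentiable ℂ F) {k : ℕ} {t : ℝ}
    (hk : k ≤ analyticOrderNatAt F (1 / 2 + t * I)) : HasZeros F k (1 / 2 + t * I) 0 := by
  have h1 : (k : ℕ∞) ≤ analyticOrderAt F (1 / 2 + t * I) := by
    by_cases htop : analyticOrderAt F (1 / 2 + t * I) = ⊤
    · rw [htop]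
      exact le_top
    · rw [← Nat.cast_analyticOrderNatAt htop]
      exact_mod_cast hk
  exact Pool.Agent.R399.TM.Dv.of_order hF le_rfl h1

/-- **the family along `⌊α n ^ h⌋`** -/
theorem main {m M : ℕ} (hm : m ≤ 3) {L : (q : ℕ) → DirichletCharacter ℂ q → ℂ → ℂ}
    (hF : Pool.Agent.R399.TM.Fo m M L) {h : ℝ} (hh : 0 < h) :
    ∃ (δ A B C K : ℝ) (Ka : ℝ → ℝ), 0 < δ ∧ ∀ᵐ α : ℝ, 0 < α → ∃ N₀ : ℕ, 3 ≤ N₀ ∧ ∀ N : ℕ, N₀ ≤ N →
      (∀ n ∈ Ioc N (2 * N), 2 ≤ cond α h n) ∧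
      (∀ (T r : ℝ) (k : ℕ), 0 ≤ T → 0 ≤ r → r ≤ 1 / 100 →
        700 * (h + 2) * r * (1 + Real.log N) + 1 ≤ k →
        count M α h N (Near L k T r) ≤
          C * (2 + T) ^ A * (1 + Real.log N) ^ B * (N * Real.exp (-(δ * k)))) ∧
      (∀ (T r : ℝ) (κ : (q : ℕ) → DirichletCharacter ℂ q → ℕ), 0 ≤ T → 0 ≤ r → r ≤ 1 / 100 →
        (∀ (q : ℕ) (χ : DirichletCharacter ℂ q), 2 ≤ q → Nat.Coprime q M → χ.IsPrimitive →
          Near L (κ q χ) T r q χ) →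
        sumOver M α h N κ ≤ K * N * (r * Real.log N + Real.log (1 + Real.log N) + Real.log (2 + T))) ∧
      ∀ a : ℝ, count M α h N (Clust L (Ka a) (Real.log N)) ≤ Ka a * N / (1 + Real.log N) ^ a := by
  obtain ⟨C₀, B, D⟩ := tail_inst hm hF
  obtain ⟨c, hc0, hc1, hus⟩ := us_inst h hh
  obtain ⟨δ, A, C, K, Ka, hδ, hae⟩ := family D hh hc0 hc1 hus
  exact ⟨δ, A, B, C, K, Ka, hδ, hae⟩

end Pool.Agent.D0H40.TS
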