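import Pool.Agent.D0H40.TS.Fam

/-! The number of the primitive characters of conductor `⌊α n ^ h⌋`, from below. -/

set_option autoImplicit false

namespace Pool.Agent.D0H40.TS

open Finset MeasureTheory Filter Topology

theorem totient_lower (q : ℕ) :
    (q : ℝ) - ∑ p ∈ q.primeFactors, (q : ℝ) / p ≤ (Nat.totient q : ℝ) := by
  classical
  rcases Nat.eq_zero_or_pos q with hq | hq
  · subst hq
    simp
  have h1 : q = ((range q).filter (fun a => q.Coprime a)).card +
      ((range q).filter (fun a => ¬ q.Coprime a)).card := by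
    rw [Finset.card_filter_add_card_filter_not, card_range]
  have h2 : (range q).filter (fun a => ¬ q.Coprime a) ⊆
      q.primeFactors.biUnion fun p => (range (q / p)).image fun i => p * i := by
    intro a ha
    rw [mem_filter, mem_range] at ha
    obtain ⟨p, hp, h3, h4⟩ := Nat.Prime.not_coprime_iff_dvd.1 ha.2
    rw [mem_biUnion]
    refine ⟨p, Nat.mem_primeFactors.2 ⟨hp, h3, hq.ne'⟩, ?_⟩
    rw [mem_image]
    refine ⟨a / p, ?_, Nat.mul_div_cancel' h4⟩
    rw [mem_range]
    exact Nat.div_lt_div_of_lt_of_dvd h3 ha.1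
  have h3 := (card_le_card h2).trans card_biUnion_le
  have h4 : ∑ p ∈ q.primeFactors, ((range (q / p)).image fun i => p * i).card ≤
      ∑ p ∈ q.primeFactors, q / p := by
    refine Finset.sum_le_sum fun p _ => ?_
    exact card_image_le.trans (by rw [card_range])
  have h5 : q ≤ Nat.totient q + ∑ p ∈ q.primeFactors, q / p := by
    have h6 : ((range q).filter (fun a => q.Coprime a)).card = Nat.totient q := rfl
    omega
  have h6 : (q : ℝ) ≤ Nat.totient q + ∑ p ∈ q.primeFactors, (((q / p : ℕ)) : ℝ) := by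
    exact_mod_cast h5
  have h7 : ∑ p ∈ q.primeFactors, (((q / p : ℕ)) : ℝ) ≤ ∑ p ∈ q.primeFactors, (q : ℝ) / p :=
    Finset.sum_le_sum fun p _ => Nat.cast_div_le
  linarith

theorem prim_lower (q : ℕ) (hq : 1 ≤ q) :
    1 - 2 * ∑ p ∈ q.primeFactors, (1 : ℝ) / p ≤
      ({χ : DirichletCharacter ℂ q | χ.IsPrimitive}.ncard : ℝ) / q := by
  classical
  have hne : NeZero q := ⟨by omega⟩
  have hq0 : (0 : ℝ) < q := by exact_mod_cast hq
  set S : Set (DirichletCharacter ℂ q) := {χ | χ.IsPrimitive} with hS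
  let R : ℕ → Set (DirichletCharacter ℂ q) := fun p =>
    if hd : q / p ∣ q then Set.range (DirichletCharacter.changeLevel (R := ℂ) hd) else ∅
  have hsub : Sᶜ ⊆ ⋃ p ∈ q.primeFactors, R p := by
    intro χ hχ
    have h1 : χ.conductor ≠ q := fun h => hχ h
    have h2 : χ.conductor ∣ q := χ.conductor_dvd_level
    obtain ⟨e, he⟩ := h2
    have he1 : e ≠ 1 := by
      rintro rfl
      exact h1 (by omega)
    obtain ⟨p, hp, f, hf⟩ := Nat.exists_prime_and_dvd he1
    have hqe : q = p * (χ.conductor * f) := by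
      have h7 := he
      rw [hf] at h7
      exact h7.trans (by ring)
    have hpq : p ∣ q := ⟨χ.conductor * f, hqe⟩
    have hdiv : q / p = χ.conductor * f := Nat.div_eq_of_eq_mul_right hp.pos hqe
    rw [Set.mem_iUnion₂]
    refine ⟨p, Nat.mem_primeFactors.2 ⟨hp, hpq, hne.ne⟩, ?_⟩
    have hd : q / p ∣ q := Nat.div_dvd_of_dvd hpq
    simp only [R, dif_pos hd]
    obtain ⟨h3, χ₀, h4⟩ := χ.factorsThrough_conductor
    have h5 : χ.conductor ∣ q / p := ⟨f, hdiv⟩
    refine ⟨DirichletCharacter.changeLevel h5 χ₀, ?_⟩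
    rw [← DirichletCharacter.changeLevel_trans]
    exact h4.symm
  have h1 := (Set.ncard_le_ncard hsub (Set.toFinite _)).trans
    (Finset.set_ncard_biUnion_le q.primeFactors R)
  have h2 : ∀ p ∈ q.primeFactors, (R p).ncard ≤ q / p := by
    intro p hp
    have hpp := Nat.prime_of_mem_primeFactors hp
    have hpq := Nat.dvd_of_mem_primeFactors hp
    have hd : q / p ∣ q := Nat.div_dvd_of_dvd hpq
    have hpos : 0 < q / p := Nat.div_pos (Nat.le_of_dvd (by omega) hpq) hpp.pos
    have : NeZero (q / p) := ⟨hpos.ne'⟩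
    simp only [R, dif_pos hd]
    rw [← Set.image_univ]
    refine (Set.ncard_image_le (Set.toFinite _)).trans ?_
    rw [Set.ncard_univ, DirichletCharacter.card_eq_totient_of_hasEnoughRootsOfUnity]
    exact Nat.totient_le _
  have h3 : S.ncard + Sᶜ.ncard = Nat.totient q := by
    rw [Set.ncard_add_ncard_compl, DirichletCharacter.card_eq_totient_of_hasEnoughRootsOfUnity]
  have h4 : Nat.totient q ≤ S.ncard + ∑ p ∈ q.primeFactors, q / p := by
    have := Finset.sum_le_sum h2
    omega
  have h5 : (Nat.totient q : ℝ) ≤ S.ncard + ∑ p ∈ q.primeFactors, (((q / p : ℕ)) : ℝ) := by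
    exact_mod_cast h4
  have h6 : ∑ p ∈ q.primeFactors, (((q / p : ℕ)) : ℝ) ≤ ∑ p ∈ q.primeFactors, (q : ℝ) / p :=
    Finset.sum_le_sum fun p _ => Nat.cast_div_le
  have h7 := totient_lower q
  rw [le_div_iff₀ hq0]
  have e : (1 - 2 * ∑ p ∈ q.primeFactors, (1 : ℝ) / p) * q =
      q - 2 * ∑ p ∈ q.primeFactors, (q : ℝ) / p := by
    rw [sub_mul, one_mul, mul_assoc, Finset.sum_mul]
    congr 2
    refine Finset.sum_congr rfl fun p _ => ?_
    ring
  rw [e]
  linarith

/-- a set of integers in an interval which are congruent modulo `D` -/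
theorem class_le {A : Finset ℕ} {a b D : ℕ} (hD : 0 < D) (hA : ∀ q ∈ A, a ≤ q ∧ q ≤ b)
    (hc : ∀ q ∈ A, ∀ q' ∈ A, (D : ℤ) ∣ (q : ℤ) - q') (hab : a ≤ b) :
    (A.card : ℝ) ≤ ((b : ℝ) - a) / D + 1 := by
  have hD0 : (0 : ℝ) < D := by exact_mod_cast hD
  have h1 : A.card ≤ (range ((b - a) / D + 1)).card := by
    refine Finset.card_le_card_of_injOn (fun q => (q - a) / D) ?_ ?_
    · intro q hq
      have := hA q hq
      simp only [Finset.coe_range, Set.mem_Iio]
      exact Nat.lt_succ_of_le (Nat.div_le_div_right (by omega))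
    · intro q hq q' hq' h
      simp only at h
      have g1 := hA q hq
      have g2 := hA q' hq'
      have g3 := Nat.div_add_mod (q - a) D
      have g4 := Nat.div_add_mod (q' - a) D
      have g5 := Nat.mod_lt (q - a) hD
      have g6 := Nat.mod_lt (q' - a) hD
      obtain ⟨e, he⟩ := hc q hq q' hq'
      rw [h] at g3
      have g7 : (q : ℤ) - q' = ((q - a) % D : ℕ) - ((q' - a) % D : ℕ) := by
        have k1 : ((q - a : ℕ) : ℤ) = q - a := Nat.cast_sub g1.1
        have k2 : ((q' - a : ℕ) : ℤ) = q' - a := Nat.cast_sub g2.1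
        have k3 : ((D * ((q' - a) / D) + (q - a) % D : ℕ) : ℤ) = q - a := by rw [g3, k1]
        have k4 : ((D * ((q' - a) / D) + (q' - a) % D : ℕ) : ℤ) = q' - a := by rw [g4, k2]
        push_cast at k3 k4 ⊢
        linarith
      have g8 : |(D : ℤ) * e| < D := by
        rw [← he, g7, abs_lt]
        constructor <;> omega
      have g9 : e = 0 := by
        by_contra hne
        have : 1 ≤ |e| := Int.one_le_abs hne
        rw [abs_mul, abs_of_nonneg (by positivity : (0 : ℤ) ≤ (D : ℤ))] at g8
        nlinarith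
      rw [g9, mul_zero] at he
      omega
  rw [card_range] at h1
  have h2 : (A.card : ℝ) ≤ (((b - a) / D : ℕ) : ℝ) + 1 := by exact_mod_cast h1
  have h3 : (((b - a) / D : ℕ) : ℝ) ≤ ((b - a : ℕ) : ℝ) / D := Nat.cast_div_le
  rw [Nat.cast_sub hab] at h3
  linarith

/-- an arithmetic progression in an interval, from below -/
theorem ap_ge {a b W : ℕ} (hW : 2 ≤ W) (_hab : a ≤ b) :
    ((b : ℝ) - a) / W - 3 ≤ (((Icc a b).filter (fun q => q % W = 1)).card : ℝ) := by
  have hW0 : (0 : ℝ) < W := by exact_mod_cast (by omega : 0 < W)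
  have h1 : (Ico (a / W + 1) (b / W)).card ≤ ((Icc a b).filter (fun q => q % W = 1)).card := by
    refine Finset.card_le_card_of_injOn (fun i => W * i + 1) ?_ ?_
    · intro i hi
      simp only [Finset.coe_Ico, Set.mem_Ico] at hi
      simp only [Finset.coe_filter, mem_Icc, Set.mem_ofPred_eq]
      have g1 := Nat.div_add_mod a W
      have g2 := Nat.mod_lt a (by omega : 0 < W)
      have g3 := Nat.div_mul_le_self b W
      have g4 : W * (a / W + 1) ≤ W * i := Nat.mul_le_mul_left W hi.1
      have g5 : W * (i + 1) ≤ W * (b / W) := Nat.mul_le_mul_left W hi.2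
      rw [mul_add, mul_one] at g4 g5
      rw [mul_comm (b / W) W] at g3
      refine ⟨⟨by omega, by omega⟩, ?_⟩
      rw [Nat.mul_add_mod]
      exact Nat.mod_eq_of_lt (by omega)
    · intro i _ j _ h
      simp only [Nat.add_right_cancel_iff] at h
      exact Nat.eq_of_mul_eq_mul_left (by omega) h
  rw [Nat.card_Ico] at h1
  have h2 : b / W ≤ ((Icc a b).filter (fun q => q % W = 1)).card + (a / W + 1) := by omega
  have h3 : ((b / W : ℕ) : ℝ) ≤ (((Icc a b).filter (fun q => q % W = 1)).card : ℝ) +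
      (((a / W : ℕ) : ℝ) + 1) := by exact_mod_cast h2
  have h4 : (b : ℝ) / W ≤ ((b / W : ℕ) : ℝ) + 1 := by
    have g1 := Nat.div_add_mod b W
    have g2 := Nat.mod_lt b (by omega : 0 < W)
    rw [div_le_iff₀ hW0]
    have g3 : b ≤ W * (b / W) + W := by omega
    have g4 : (b : ℝ) ≤ W * ((b / W : ℕ) : ℝ) + W := by exact_mod_cast g3
    linarith
  have h5 : ((a / W : ℕ) : ℝ) ≤ (a : ℝ) / W := Nat.cast_div_le
  rw [sub_div]
  linarith

/-- the proportion of the primitive characters in a window -/
theorem window {M : ℕ} (hM : 1 ≤ M) {a b : ℕ} (ha : 1 ≤ a) (hab : a ≤ b) :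
    7 / 10 * (((b : ℝ) - a) / (210 * M)) - 5 - 2 * Real.log b ≤
      ∑ q ∈ (Icc a b).filter (fun q => q % (210 * M) = 1),
        ({χ : DirichletCharacter ℂ q | χ.IsPrimitive}.ncard : ℝ) / q := by
  classical
  set W : ℕ := 210 * M with hW
  have hW2 : 2 ≤ W := by omega
  have hW0 : 0 < W := by omega
  have hWr : (0 : ℝ) < W := by exact_mod_cast hW0
  set A := (Icc a b).filter (fun q => q % W = 1) with hA
  have hb1 : (1 : ℝ) ≤ b := by exact_mod_cast ha.trans hab
  have h1 : ∑ q ∈ A, (1 - 2 * ∑ p ∈ q.primeFactors, (1 : ℝ) / p) ≤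
      ∑ q ∈ A, ({χ : DirichletCharacter ℂ q | χ.IsPrimitive}.ncard : ℝ) / q := by
    refine Finset.sum_le_sum fun q hq => prim_lower q ?_
    rw [hA, mem_filter, mem_Icc] at hq
    omega
  refine le_trans ?_ h1
  rw [Finset.sum_sub_distrib, Finset.sum_const, nsmul_eq_mul, mul_one, ← Finset.mul_sum]
  have hbase := ap_ge hW2 hab
  rw [← hA] at hbase
  -- prime factors of the elements of the progression
  have hpf : ∀ q ∈ A, ∀ p ∈ q.primeFactors, p ∈ Ioc 10 b ∧ Nat.Coprime p W ∧ p ∣ q := by
    intro q hq p hp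
    rw [hA, mem_filter, mem_Icc] at hq
    have hpp := Nat.prime_of_mem_primeFactors hp
    have hpq := Nat.dvd_of_mem_primeFactors hp
    have hcW : ∀ d, d ∣ q → d ∣ W → d = 1 := by
      intro d h2 h3
      have h4 : q = W * (q / W) + 1 := by
        have := Nat.div_add_mod q W
        omega
      have h5 : d ∣ W * (q / W) := h3.mul_right _
      rw [h4] at h2
      exact Nat.dvd_one.1 ((Nat.dvd_add_right h5).1 h2)
    have hnd : ¬ p ∣ W := fun h => hpp.one_lt.ne' (hcW p hpq h)
    refine ⟨?_, (Nat.Prime.coprime_iff_not_dvd hpp).2 hnd, hpq⟩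
    rw [mem_Ioc]
    constructor
    · by_contra hle
      push Not at hle
      have h210 : ¬ p ∣ 210 := fun h => hnd (h.mul_right M)
      have : p = 2 ∨ p = 3 ∨ p = 5 ∨ p = 7 := by
        interval_cases p <;> first | (exfalso; revert hpp; norm_num; done) | simp
      rcases this with h | h | h | h <;> subst h <;> exact h210 (by norm_num)
    · exact (Nat.le_of_dvd (by omega) hpq).trans hq.1.2
  have hsum : ∑ q ∈ A, ∑ p ∈ q.primeFactors, (1 : ℝ) / p ≤
      1 / 10 * (((b : ℝ) - a) / W) + (1 + Real.log b) := by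
    calc ∑ q ∈ A, ∑ p ∈ q.primeFactors, (1 : ℝ) / p
        ≤ ∑ q ∈ A, ∑ p ∈ Ioc 10 b, (if Nat.Coprime p W ∧ p ∣ q then (1 : ℝ) / p else 0) := by
          refine Finset.sum_le_sum fun q hq => ?_
          rw [← Finset.sum_filter]
          refine Finset.sum_le_sum_of_subset_of_nonneg ?_ fun p _ _ => by positivity
          intro p hp
          obtain ⟨g1, g2, g3⟩ := hpf q hq p hp
          exact mem_filter.2 ⟨g1, g2, g3⟩
      _ = ∑ p ∈ Ioc 10 b, ∑ q ∈ A, (if Nat.Coprime p W ∧ p ∣ q then (1 : ℝ) / p else 0) :=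
          Finset.sum_comm
      _ ≤ ∑ p ∈ Ioc 10 b, (((b : ℝ) - a) / W * ((p : ℝ) ^ 2)⁻¹ + (p : ℝ)⁻¹) := by
          refine Finset.sum_le_sum fun p hp => ?_
          rw [mem_Ioc] at hp
          have hp0 : (0 : ℝ) < p := by exact_mod_cast (by omega : 0 < p)
          by_cases hc : Nat.Coprime p W
          · rw [← Finset.sum_filter, Finset.sum_const, nsmul_eq_mul]
            have g1 := class_le (A := A.filter (fun q => Nat.Coprime p W ∧ p ∣ q)) (a := a) (b := b)
              (D := p * W) (Nat.mul_pos (by omega) hW0) (fun q hq => ?_) (fun q hq q' hq' => ?_) hab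
            · calc ((A.filter (fun q => Nat.Coprime p W ∧ p ∣ q)).card : ℝ) * (1 / p)
                  ≤ (((b : ℝ) - a) / ((p * W : ℕ) : ℝ) + 1) * (1 / p) := by gcongr
                _ = _ := by
                    push_cast
                    field_simp
            · rw [mem_filter, hA, mem_filter, mem_Icc] at hq
              exact hq.1.1
            · rw [mem_filter, hA, mem_filter, mem_Icc] at hq hq'
              push_cast
              refine IsCoprime.mul_dvd ?_ ?_ ?_
              · exact Nat.isCoprime_iff_coprime.2 hc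
              · exact dvd_sub (Int.natCast_dvd_natCast.2 hq.2.2) (Int.natCast_dvd_natCast.2 hq'.2.2)
              · have g2 := hq.1.2
                have g3 := hq'.1.2
                have g4 : (q : ℤ) % W = (q' : ℤ) % W := by
                  have : q % W = q' % W := by rw [g2, g3]
                  exact_mod_cast this
                exact Int.ModEq.dvd (show (q' : ℤ) ≡ q [ZMOD W] from g4.symm)
          · rw [Finset.sum_eq_zero fun q _ => if_neg fun h => hc h.1]
            have : (0 : ℝ) ≤ (b : ℝ) - a := by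
              have : (a : ℝ) ≤ b := by exact_mod_cast hab
              linarith
            positivity
      _ = ((b : ℝ) - a) / W * ∑ p ∈ Ioc 10 b, ((p : ℝ) ^ 2)⁻¹ + ∑ p ∈ Ioc 10 b, (p : ℝ)⁻¹ := by
          rw [Finset.sum_add_distrib, ← Finset.mul_sum]
      _ ≤ 1 / 10 * (((b : ℝ) - a) / W) + (1 + Real.log b) := by
          have hba : (0 : ℝ) ≤ ((b : ℝ) - a) / W := by
            have : (a : ℝ) ≤ b := by exact_mod_cast hab
            have h2 : (0 : ℝ) ≤ (b : ℝ) - a := by linarith
            positivity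
          have g1 : ∑ p ∈ Ioc 10 b, ((p : ℝ) ^ 2)⁻¹ ≤ 1 / 10 := by
            rcases le_or_gt 10 b with hb | hb
            · have g2 := sum_Ioc_inv_sq_le_sub (α := ℝ) (k := 10) (n := b) (by norm_num) hb
              have g3 : (0 : ℝ) ≤ (b : ℝ)⁻¹ := by positivity
              push_cast at g2
              linarith
            · rw [Finset.Ioc_eq_empty (by omega), Finset.sum_empty]
              norm_num
          have g4 : ∑ p ∈ Ioc 10 b, (p : ℝ)⁻¹ ≤ 1 + Real.log b := by
            have g5 := harmonic_le_one_add_log b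
            refine le_trans ?_ g5
            rw [harmonic_eq_sum_Icc]
            push_cast
            refine Finset.sum_le_sum_of_subset_of_nonneg ?_ fun p _ _ => by positivity
            intro p hp
            rw [mem_Ioc] at hp
            exact mem_Icc.2 ⟨by omega, hp.2⟩
          have g6 : ((b : ℝ) - a) / W * ∑ p ∈ Ioc 10 b, ((p : ℝ) ^ 2)⁻¹ ≤
              ((b : ℝ) - a) / W * (1 / 10) := mul_le_mul_of_nonneg_left g1 hba
          linarith
  have e : (210 : ℝ) * M = W := by
    rw [hW]
    push_cast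
    ring
  rw [e]
  have hba : (0 : ℝ) ≤ ((b : ℝ) - a) / W := by
    have : (a : ℝ) ≤ b := by exact_mod_cast hab
    have h2 : (0 : ℝ) ≤ (b : ℝ) - a := by linarith
    positivity
  linarith

end Pool.Agent.D0H40.TS
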