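import Pool.Agent.D0H40.TS.Low

/-! Sampling from below. -/

set_option autoImplicit false

namespace Pool.Agent.D0H40.TS

open Finset MeasureTheory Filter Topology

theorem int_floor_ge (f : ℕ → ℝ) (hf : ∀ q, 0 ≤ f q ∧ f q ≤ 1) {X Y : ℝ} (hY : 0 ≤ Y)
    (h3 : ⌊X⌋₊ + 1 ≤ ⌊Y⌋₊) : ∑ q ∈ Ico (⌊X⌋₊ + 1) ⌊Y⌋₊, f q ≤ ∫ x in X..Y, f ⌊x⌋₊ := by
  have h1 : X ≤ ((⌊X⌋₊ + 1 : ℕ) : ℝ) := by
    push_cast
    exact (Nat.lt_floor_add_one X).le
  have h2 : ((⌊Y⌋₊ : ℕ) : ℝ) ≤ Y := Nat.floor_le hY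
  rw [← int_floor f hf _ _ h3]
  refine intervalIntegral.integral_mono_interval h1 (by exact_mod_cast h3) h2 ?_ (ii_floor f hf _ _)
  exact Filter.Eventually.of_forall fun x => (hf _).1

theorem int_block_ge {h α : ℝ} (hh : 0 < h) (hα : 0 < α) (N : ℕ) (hN : 1 ≤ N) (g : ℝ → ℝ) (hgm : Measurable g)
    (hg : ∀ x, 0 ≤ g x ∧ g x ≤ 1) :
    (N / (h * (α * (2 * N : ℝ) ^ h))) * ∫ x in (α * (N : ℝ) ^ h)..(α * (2 * N : ℝ) ^ h), g x ≤
      ∫ u in (N : ℝ)..(2 * N : ℝ), g (α * u ^ h) := by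
  have hN1 : (1 : ℝ) ≤ N := by exact_mod_cast hN
  have hN0 : (0 : ℝ) < N := by linarith
  have hN2 : (N : ℝ) ≤ 2 * N := by linarith
  have hX0 : 0 < α * (N : ℝ) ^ h := by positivity
  have hXY : α * (N : ℝ) ^ h ≤ α * (2 * N : ℝ) ^ h := by
    apply mul_le_mul_of_nonneg_left _ hα.le
    exact Real.rpow_le_rpow hN0.le hN2 hh.le
  rw [intervalIntegral.integral_of_le hXY, intervalIntegral.integral_of_le hN2]
  have himg : (fun u : ℝ => α * u ^ h) '' Set.Ioc (N : ℝ) (2 * N) =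
      Set.Ioc (α * (N : ℝ) ^ h) (α * (2 * N : ℝ) ^ h) := by
    ext x
    constructor
    · rintro ⟨u, hu, rfl⟩
      have hu0 : 0 < u := hN0.trans hu.1
      refine ⟨?_, ?_⟩
      · exact mul_lt_mul_of_pos_left (Real.rpow_lt_rpow hN0.le hu.1 hh) hα
      · exact mul_le_mul_of_nonneg_left (Real.rpow_le_rpow hu0.le hu.2 hh.le) hα.le
    · intro x_mem
      have hx0 : 0 < x := hX0.trans x_mem.1
      have e0 : ∀ y : ℝ, 0 < y → (y ^ h) ^ (1 / h) = y := by
        intro y hy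
        rw [← Real.rpow_mul hy.le]
        have : h * (1 / h) = 1 := by field_simp
        rw [this, Real.rpow_one]
      refine ⟨(x / α) ^ (1 / h), ⟨?_, ?_⟩, ?_⟩
      · have h1 : (N : ℝ) ^ h < x / α := by
          rw [lt_div_iff₀ hα]
          linarith [x_mem.1]
        calc (N : ℝ) = ((N : ℝ) ^ h) ^ (1 / h) := (e0 _ hN0).symm
          _ < _ := Real.rpow_lt_rpow (by positivity) h1 (by positivity)
      · have h1 : x / α ≤ (2 * N : ℝ) ^ h := by
          rw [div_le_iff₀ hα]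
          linarith [x_mem.2]
        calc (x / α) ^ (1 / h) ≤ ((2 * N : ℝ) ^ h) ^ (1 / h) :=
              Real.rpow_le_rpow (by positivity) h1 (by positivity)
          _ = _ := e0 _ (by positivity)
      · simp only
        rw [← Real.rpow_mul (by positivity)]
        have : 1 / h * h = 1 := by field_simp
        rw [this, Real.rpow_one]
        field_simp
  have hinj : Set.InjOn (fun u : ℝ => α * u ^ h) (Set.Ioc (N : ℝ) (2 * N)) := by
    intro u hu v hv huv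
    simp only at huv
    have h1 := mul_left_cancel₀ hα.ne' huv
    exact (Real.rpow_left_inj (hN0.trans hu.1).le (hN0.trans hv.1).le hh.ne').1 h1
  have hder : ∀ u ∈ Set.Ioc (N : ℝ) (2 * N), HasDerivWithinAt (fun u : ℝ => α * u ^ h)
      (α * (h * u ^ (h - 1))) (Set.Ioc (N : ℝ) (2 * N)) u := by
    intro u hu
    apply HasDerivAt.hasDerivWithinAt
    exact (Real.hasDerivAt_rpow_const (Or.inl (hN0.trans hu.1).ne')).const_mul α
  have hcv := integral_image_eq_integral_abs_deriv_smul measurableSet_Ioc hder hinj g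
  rw [himg] at hcv
  rw [hcv]
  have hgi : IntegrableOn (fun u : ℝ => g (α * u ^ h)) (Set.Ioc (N : ℝ) (2 * N)) volume := by
    refine Measure.integrableOn_of_bounded (M := 1) (by simp) (hgm.comp (by fun_prop)).aestronglyMeasurable ?_
    refine Filter.Eventually.of_forall fun u => ?_
    rw [Real.norm_eq_abs, abs_of_nonneg (hg _).1]
    exact (hg _).2
  have hup : ∀ u ∈ Set.Ioc (N : ℝ) (2 * N), |α * (h * u ^ (h - 1))| ≤ h * (α * (2 * N : ℝ) ^ h) / N := by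
    intro u hu
    have hu0 : 0 < u := hN0.trans hu.1
    rw [abs_of_pos (by positivity)]
    have h1 : u ^ (h - 1) = u ^ h / u := Real.rpow_sub_one hu0.ne' h
    rw [h1]
    have h2 : u ^ h ≤ (2 * N : ℝ) ^ h := Real.rpow_le_rpow hu0.le hu.2 hh.le
    have h3 : u ^ h / u ≤ (2 * N : ℝ) ^ h / N := by
      apply div_le_div₀ (by positivity) h2 hN0 hu.1.le
    calc α * (h * (u ^ h / u)) ≤ α * (h * ((2 * N : ℝ) ^ h / N)) := by gcongr
      _ = _ := by ring
  have hmeas : Measurable fun u : ℝ => |α * (h * u ^ (h - 1))| := by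
    have e : (fun u : ℝ => |α * (h * u ^ (h - 1))|) = fun u => ‖α * (h * u ^ (h - 1))‖ := rfl
    rw [e]
    apply Measurable.norm
    fun_prop
  have hint2 : IntegrableOn (fun u : ℝ => |α * (h * u ^ (h - 1))| • g (α * u ^ h))
      (Set.Ioc (N : ℝ) (2 * N)) volume := by
    refine Measure.integrableOn_of_bounded (M := h * (α * (2 * N : ℝ) ^ h) / N) (by simp) ?_ ?_
    · apply Measurable.aestronglyMeasurable
      simp only [smul_eq_mul]
      exact hmeas.mul (hgm.comp (by fun_prop))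
    · refine (ae_restrict_iff' measurableSet_Ioc).2 (Filter.Eventually.of_forall fun u hu => ?_)
      rw [norm_smul, Real.norm_eq_abs, abs_abs, Real.norm_eq_abs, abs_of_nonneg (hg _).1]
      calc _ ≤ h * (α * (2 * N : ℝ) ^ h) / N * 1 := by
            have := (hg (α * u ^ h)).1
            exact mul_le_mul (hup u hu) (hg _).2 this (by positivity)
        _ = _ := mul_one _
  have hY0 : 0 < α * (2 * N : ℝ) ^ h := by positivity
  have hpt : ∀ u ∈ Set.Ioc (N : ℝ) (2 * N),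
      (N / (h * (α * (2 * N : ℝ) ^ h))) * (|α * (h * u ^ (h - 1))| • g (α * u ^ h)) ≤ g (α * u ^ h) := by
    intro u hu
    have h1 := hup u hu
    have h2 := (hg (α * u ^ h)).1
    rw [smul_eq_mul, ← mul_assoc]
    have h3 : (N / (h * (α * (2 * N : ℝ) ^ h))) * |α * (h * u ^ (h - 1))| ≤ 1 := by
      have h4 : (N / (h * (α * (2 * N : ℝ) ^ h))) * (h * (α * (2 * N : ℝ) ^ h) / N) = 1 := by
        field_simp
      calc _ ≤ (N / (h * (α * (2 * N : ℝ) ^ h))) * (h * (α * (2 * N : ℝ) ^ h) / N) :=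
            mul_le_mul_of_nonneg_left h1 (by positivity)
        _ = 1 := h4
    calc _ ≤ 1 * g (α * u ^ h) := mul_le_mul_of_nonneg_right h3 h2
      _ = _ := one_mul _
  rw [← integral_const_mul]
  exact setIntegral_mono_on (hint2.const_mul _) hgi measurableSet_Ioc hpt

/-- **sampling in dyadic blocks, from below** -/
theorem samp_ge {h c : ℝ} (hh : 0 < h) (hc0 : 0 < c) (hUS : US h c) (b : ℕ → ℝ)
    (hb : ∀ q, 0 ≤ b q ∧ b q ≤ 1) :
    ∀ᵐ α : ℝ, 0 < α → ∀ᶠ N : ℕ in atTop,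
      (N / (h * (α * (2 * N : ℝ) ^ h))) * (∫ x in (α * (N : ℝ) ^ h)..(α * (2 * N : ℝ) ^ h), b ⌊x⌋₊) -
        3 * (N : ℝ) ^ (1 - c) ≤ ∑ n ∈ Ioc N (2 * N), b ⌊α * (n : ℝ) ^ h⌋₊ := by
  have h0 := hUS (fun _ q => ((b q : ℝ) : ℂ)) (fun _ q => by
    rw [Complex.norm_real, Real.norm_eq_abs, abs_of_nonneg (hb q).1]
    exact (hb q).2)
  filter_upwards [h0] with α hα hα0
  have h1 := hα hα0
  have h2 : ∀ᶠ N : ℕ in atTop, ∀ j : ℕ, (j : ℝ) ≤ ((2 * N : ℕ) : ℝ) ^ c →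
      ‖∑ n ∈ Icc 1 (2 * N), ((b ⌊α * (n : ℝ) ^ h⌋₊ : ℝ) : ℂ) -
        ∫ u in (0 : ℝ)..((2 * N : ℕ) : ℝ), ((b ⌊α * u ^ h⌋₊ : ℝ) : ℂ)‖ ≤ ((2 * N : ℕ) : ℝ) ^ (1 - c) :=
    (tendsto_id.const_mul_atTop' (by norm_num : 0 < 2)).eventually h1
  filter_upwards [h1, h2, eventually_ge_atTop 1] with N h3 h4 hN1
  have hN1' : (1 : ℝ) ≤ N := by exact_mod_cast hN1
  have hN0 : (0 : ℝ) < N := by linarith
  have h5 := h3 0 (by rw [Nat.cast_zero]; positivity)
  have h6 := h4 0 (by rw [Nat.cast_zero]; positivity)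
  have e1 : ∀ M : ℕ, ‖∑ n ∈ Icc 1 M, ((b ⌊α * (n : ℝ) ^ h⌋₊ : ℝ) : ℂ) -
        ∫ u in (0 : ℝ)..(M : ℝ), ((b ⌊α * u ^ h⌋₊ : ℝ) : ℂ)‖ =
      |∑ n ∈ Icc 1 M, b ⌊α * (n : ℝ) ^ h⌋₊ - ∫ u in (0 : ℝ)..(M : ℝ), b ⌊α * u ^ h⌋₊| := by
    intro M
    rw [intervalIntegral.integral_ofReal, ← Complex.ofReal_sum, ← Complex.ofReal_sub, Complex.norm_real,
      Real.norm_eq_abs]
  rw [e1] at h5 h6
  have h7 := (abs_le.1 h5).2
  have h8 := (abs_le.1 h6).1
  have hII : ∀ x y : ℝ, IntervalIntegrable (fun u : ℝ => b ⌊α * u ^ h⌋₊) volume x y := by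
    intro x y
    rw [intervalIntegrable_iff]
    refine Measure.integrableOn_of_bounded (M := 1) (by simp) ?_ (Filter.Eventually.of_forall fun u => ?_)
    · have hm : Measurable fun u : ℝ => α * u ^ h := by fun_prop
      exact ((meas_floor b).comp hm).aestronglyMeasurable
    · rw [Real.norm_eq_abs, abs_of_nonneg (hb _).1]
      exact (hb _).2
  have e2 : ∫ u in (0 : ℝ)..((2 * N : ℕ) : ℝ), b ⌊α * u ^ h⌋₊ =
      (∫ u in (0 : ℝ)..(N : ℝ), b ⌊α * u ^ h⌋₊) + ∫ u in (N : ℝ)..(2 * N : ℝ), b ⌊α * u ^ h⌋₊ := by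
    push_cast
    exact (intervalIntegral.integral_add_adjacent_intervals (hII _ _) (hII _ _)).symm
  have e3 : ∑ n ∈ Icc 1 (2 * N), b ⌊α * (n : ℝ) ^ h⌋₊ =
      ∑ n ∈ Icc 1 N, b ⌊α * (n : ℝ) ^ h⌋₊ + ∑ n ∈ Ioc N (2 * N), b ⌊α * (n : ℝ) ^ h⌋₊ := by
    rw [← Finset.sum_union]
    · congr 1
      ext n
      simp only [mem_union, mem_Icc, mem_Ioc]
      omega
    · rw [Finset.disjoint_left]
      intro n hn
      simp only [mem_Icc, mem_Ioc] at hn ⊢
      omega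
  have h9 : (N / (h * (α * (2 * N : ℝ) ^ h))) * ∫ x in (α * (N : ℝ) ^ h)..(α * (2 * N : ℝ) ^ h), b ⌊x⌋₊ ≤
      ∫ u in (N : ℝ)..(2 * N : ℝ), b ⌊α * u ^ h⌋₊ :=
    int_block_ge hh hα0 N hN1 (fun x => b ⌊x⌋₊) (meas_floor b) (fun x => hb _)
  have h12 : ((2 * N : ℕ) : ℝ) ^ (1 - c) ≤ 2 * (N : ℝ) ^ (1 - c) := by
    push_cast
    rw [Real.mul_rpow (by norm_num) hN0.le]
    have : (2 : ℝ) ^ (1 - c) ≤ 2 ^ (1 : ℝ) := Real.rpow_le_rpow_of_exponent_le (by norm_num) (by linarith)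
    rw [Real.rpow_one] at this
    gcongr
  linarith

open Classical in
/-- the proportion of the primitive characters -/
noncomputable def pb (M q : ℕ) : ℝ :=
  if 2 ≤ q ∧ Nat.Coprime q M then ({χ : DirichletCharacter ℂ q | χ.IsPrimitive}.ncard : ℝ) / q else 0

theorem pb_bd (M q : ℕ) : 0 ≤ pb M q ∧ pb M q ≤ 1 := by
  unfold pb
  split_ifs with hq
  · refine ⟨by positivity, ?_⟩
    apply div_le_one_of_le₀ _ (Nat.cast_nonneg q)
    exact_mod_cast ncard_le hq.1 _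
  · exact ⟨le_rfl, by norm_num⟩

theorem pb_window {M : ℕ} (hM : 1 ≤ M) {a b : ℕ} (ha : 2 ≤ a) (hab : a ≤ b) :
    7 / 10 * (((b : ℝ) - a) / (210 * M)) - 5 - 2 * Real.log b ≤ ∑ q ∈ Icc a b, pb M q := by
  refine (window hM (by omega) hab).trans ?_
  rw [Finset.sum_filter]
  refine Finset.sum_le_sum fun q hq => ?_
  rw [mem_Icc] at hq
  split_ifs with hc
  · have hcop : Nat.Coprime q M := by
      have h4 : q = 210 * M * (q / (210 * M)) + 1 := by
        have := Nat.div_add_mod q (210 * M)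
        omega
      have h5 : Nat.gcd q M ∣ 1 := by
        have h6 : Nat.gcd q M ∣ q := Nat.gcd_dvd_left _ _
        have h7 : Nat.gcd q M ∣ 210 * M * (q / (210 * M)) :=
          ((Nat.gcd_dvd_right q M).mul_left 210).mul_right _
        have h8 : Nat.gcd q M ∣ 210 * M * (q / (210 * M)) + 1 := by
          rw [← h4]
          exact h6
        exact (Nat.dvd_add_right h7).1 h8
      exact Nat.dvd_one.1 h5
    unfold pb
    rw [if_pos ⟨by omega, hcop⟩]
  · exact (pb_bd M q).1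

/-- **the number of all characters, from below** -/
theorem total {M : ℕ} (hM : 1 ≤ M) {h c : ℝ} (hh : 0 < h) (hc0 : 0 < c) (hUS : US h c) :
    ∃ κ : ℝ, 0 < κ ∧ ∀ᵐ α : ℝ, 0 < α → ∀ᶠ N : ℕ in atTop,
      κ * N ≤ count M α h N (fun _ _ => True) := by
  have h2h : (1 : ℝ) < 2 ^ h := Real.one_lt_rpow (by norm_num) hh
  set lam : ℝ := 2 ^ h with hlam
  set W : ℝ := 210 * M with hW
  have hM1 : (1 : ℝ) ≤ M := by exact_mod_cast hM
  have hW0 : 0 < W := by positivity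
  have hd0 : 0 < lam - 1 := by linarith
  set κ : ℝ := (lam - 1) / (4 * h * W * lam) with hκ
  have hκ0 : 0 < κ := by positivity
  refine ⟨κ, hκ0, ?_⟩
  filter_upwards [samp_ge hh hc0 hUS (pb M) (pb_bd M)] with α hα hα0
  have tN : Tendsto (fun N : ℕ => (N : ℝ)) atTop atTop := tendsto_natCast_atTop_atTop
  have tX : Tendsto (fun N : ℕ => α * (N : ℝ) ^ h) atTop atTop :=
    ((tendsto_rpow_atTop hh).comp tN).const_mul_atTop hα0
  set ε : ℝ := (lam - 1) / (20 * W * lam) with hε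
  have hε0 : 0 < ε := by positivity
  have E1 : ∀ᶠ N : ℕ in atTop, Real.log (lam * (α * (N : ℝ) ^ h)) ≤ ε * (lam * (α * (N : ℝ) ^ h)) := by
    have t1 : Tendsto (fun N : ℕ => lam * (α * (N : ℝ) ^ h)) atTop atTop := tX.const_mul_atTop (by linarith)
    have h1 := Real.isLittleO_log_id_atTop.def hε0
    filter_upwards [t1.eventually h1, t1.eventually (eventually_ge_atTop 1)] with N hN hN1
    rw [Real.norm_eq_abs, id_eq, Real.norm_eq_abs,
      abs_of_nonneg (show (0 : ℝ) ≤ lam * (α * (N : ℝ) ^ h) by linarith)] at hN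
    exact (le_abs_self _).trans hN
  have E2 : ∀ᶠ N : ℕ in atTop, 8 * (10 * W) / (lam - 1) + 10 / (lam - 1) + 10 ≤ α * (N : ℝ) ^ h :=
    tX.eventually (eventually_ge_atTop _)
  have E3 : ∀ᶠ N : ℕ in atTop, 3 * (N : ℝ) ^ (1 - c) ≤ κ * N := by
    have t1 : Tendsto (fun N : ℕ => (N : ℝ) ^ c) atTop atTop := (tendsto_rpow_atTop hc0).comp tN
    filter_upwards [t1.eventually (eventually_ge_atTop (3 / κ)), eventually_ge_atTop 1] with N hN hN1
    have hN0 : (0 : ℝ) < N := by exact_mod_cast hN1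
    have e : (N : ℝ) = (N : ℝ) ^ (1 - c) * (N : ℝ) ^ c := by
      rw [← Real.rpow_add hN0]
      have : 1 - c + c = 1 := by ring
      rw [this, Real.rpow_one]
    have h3 : 3 ≤ κ * (N : ℝ) ^ c := by
      rw [div_le_iff₀ hκ0] at hN
      linarith
    calc 3 * (N : ℝ) ^ (1 - c) ≤ (κ * (N : ℝ) ^ c) * (N : ℝ) ^ (1 - c) := by gcongr
      _ = κ * ((N : ℝ) ^ (1 - c) * (N : ℝ) ^ c) := by ring
      _ = κ * N := by rw [← e]
  filter_upwards [hα hα0, E1, E2, E3, eventually_ge_atTop 1] with N hN e1 e2 e3 hN1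
  have hN0 : (0 : ℝ) < N := by exact_mod_cast hN1
  set X : ℝ := α * (N : ℝ) ^ h with hX
  have eY : α * (2 * N : ℝ) ^ h = lam * X := by
    rw [hX, Real.mul_rpow (by norm_num) hN0.le]
    ring
  rw [eY] at hN
  have g0 : 0 ≤ 8 * (10 * W) / (lam - 1) := by positivity
  have g0' : 0 ≤ 10 / (lam - 1) := by positivity
  have hX10 : 10 ≤ X := by linarith
  have hX0 : 0 < X := by linarith
  have hX2 : 8 * (10 * W) ≤ (lam - 1) * X := by
    have : 8 * (10 * W) / (lam - 1) ≤ X := by linarith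
    rw [div_le_iff₀ hd0] at this
    linarith
  have hX3 : 10 ≤ (lam - 1) * X := by
    have : 10 / (lam - 1) ≤ X := by linarith
    rw [div_le_iff₀ hd0] at this
    linarith
  have eXY : lam * X = X + (lam - 1) * X := by ring
  have hY0 : 0 ≤ lam * X := by positivity
  -- the window
  set a : ℕ := ⌊X⌋₊ + 1 with ha
  set b : ℕ := ⌊lam * X⌋₊ - 1 with hb
  have f1 : ((⌊X⌋₊ : ℕ) : ℝ) ≤ X := Nat.floor_le hX0.le
  have f2 : lam * X < (⌊lam * X⌋₊ : ℝ) + 1 := Nat.lt_floor_add_one _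
  have f3 : (⌊lam * X⌋₊ : ℝ) ≤ lam * X := Nat.floor_le hY0
  have f4 : ⌊X⌋₊ + 3 ≤ ⌊lam * X⌋₊ := by
    have : ((⌊X⌋₊ + 3 : ℕ) : ℝ) < (⌊lam * X⌋₊ : ℝ) + 1 := by
      push_cast
      linarith
    have h5 : ⌊X⌋₊ + 3 < ⌊lam * X⌋₊ + 1 := by exact_mod_cast this
    omega
  have f5 : 2 ≤ a := by
    have : 1 ≤ ⌊X⌋₊ := by
      apply Nat.le_floor
      push_cast
      linarith
    omega
  have f6 : a ≤ b := by omega
  have f7 : ((b : ℕ) : ℝ) = (⌊lam * X⌋₊ : ℝ) - 1 := by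
    rw [hb, Nat.cast_sub (by omega)]
    push_cast
    rfl
  have f8 : ((a : ℕ) : ℝ) = (⌊X⌋₊ : ℝ) + 1 := by
    rw [ha]
    push_cast
    rfl
  have hwin := pb_window hM f5 f6
  have hlogb : Real.log b ≤ ε * (lam * X) := by
    refine le_trans (Real.log_le_log ?_ ?_) e1
    · exact_mod_cast (by omega : 0 < b)
    · rw [f7]
      linarith
  have hεX : ε * (lam * X) = (lam - 1) * X / (20 * W) := by
    rw [hε]
    field_simp
  have hsum : 1 / 2 * ((lam - 1) * X / W) ≤ ∑ q ∈ Icc a b, pb M q := by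
    refine le_trans ?_ hwin
    have k1 : ((lam - 1) * X - 3) / W ≤ ((b : ℝ) - a) / (210 * M) := by
      rw [← hW, f7, f8]
      apply div_le_div_of_nonneg_right _ hW0.le
      linarith
    have k2 : 8 ≤ (lam - 1) * X / (10 * W) := by
      rw [le_div_iff₀ (by positivity)]
      exact hX2
    have k3 : (lam - 1) * X / (20 * W) = 1 / 20 * ((lam - 1) * X / W) := by
      field_simp
    have k4 : (lam - 1) * X / (10 * W) = 1 / 10 * ((lam - 1) * X / W) := by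
      field_simp
    have k5 : ((lam - 1) * X - 3) / W = (lam - 1) * X / W - 3 / W := sub_div _ _ _
    have k6 : 3 / W ≤ 1 := by
      rw [div_le_one hW0, hW]
      linarith
    rw [hεX, k3] at hlogb
    rw [k4] at k2
    rw [k5] at k1
    linarith
  have hint : ∑ q ∈ Icc a b, pb M q ≤ ∫ x in X..(lam * X), pb M ⌊x⌋₊ := by
    have h1 := int_floor_ge (pb M) (pb_bd M) (X := X) (Y := lam * X) hY0 (by omega)
    refine le_trans (le_of_eq ?_) h1
    congr 1
    ext q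
    simp only [mem_Icc, mem_Ico]
    omega
  have hmain : 2 * κ * N ≤ (N / (h * (lam * X))) * ∫ x in X..(lam * X), pb M ⌊x⌋₊ := by
    have h1 : (N / (h * (lam * X))) * (1 / 2 * ((lam - 1) * X / W)) ≤
        (N / (h * (lam * X))) * ∫ x in X..(lam * X), pb M ⌊x⌋₊ :=
      mul_le_mul_of_nonneg_left (hsum.trans hint) (by positivity)
    refine le_trans (le_of_eq ?_) h1
    rw [hκ]
    field_simp
    ring
  have hcount : ∑ n ∈ Ioc N (2 * N), pb M ⌊α * (n : ℝ) ^ h⌋₊ = count M α h N (fun _ _ => True) := by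
    unfold count
    rw [Finset.sum_filter]
    refine Finset.sum_congr rfl fun n _ => ?_
    unfold pb cond
    by_cases hc : 2 ≤ ⌊α * (n : ℝ) ^ h⌋₊ ∧ Nat.Coprime ⌊α * (n : ℝ) ^ h⌋₊ M
    · rw [if_pos hc, if_pos hc]
      simp only [and_true]
    · rw [if_neg hc, if_neg hc]
  rw [← hcount]
  linarith

end Pool.Agent.D0H40.TS
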