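import Mathlib

/-! Sampling of bounded functions along `⌊α n ^ h⌋` in dyadic blocks, from the universal sampling property. -/

set_option autoImplicit false

namespace Pool.Agent.D0H40.TS

open Finset MeasureTheory Filter Topology

/-- the universal sampling property for the exponent `h` with the constant `c` -/
def US (h c : ℝ) : Prop := ∀ b : ℕ → ℕ → ℂ, (∀ j m, ‖b j m‖ ≤ 1) → ∀ᵐ α : ℝ, 0 < α →
  ∀ᶠ N : ℕ in atTop, ∀ j : ℕ, (j : ℝ) ≤ (N : ℝ) ^ c →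
    ‖∑ n ∈ Icc 1 N, b j ⌊α * (n : ℝ) ^ h⌋₊ - ∫ u in (0 : ℝ)..N, b j ⌊α * u ^ h⌋₊‖ ≤ (N : ℝ) ^ (1 - c)

theorem meas_floor (f : ℕ → ℝ) : Measurable fun x : ℝ => f ⌊x⌋₊ :=
  measurable_from_nat.comp Nat.measurable_floor

theorem ii_floor (f : ℕ → ℝ) (hf : ∀ q, 0 ≤ f q ∧ f q ≤ 1) (a b : ℝ) :
    IntervalIntegrable (fun x : ℝ => f ⌊x⌋₊) volume a b := by
  rw [intervalIntegrable_iff]
  refine Measure.integrableOn_of_bounded (M := 1) (by simp) (meas_floor f).aestronglyMeasurable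
    (Filter.Eventually.of_forall fun x => ?_)
  rw [Real.norm_eq_abs, abs_of_nonneg (hf _).1]
  exact (hf _).2

theorem int_floor (f : ℕ → ℝ) (hf : ∀ q, 0 ≤ f q ∧ f q ≤ 1) (a : ℕ) : ∀ b : ℕ, a ≤ b →
    ∫ x in (a : ℝ)..b, f ⌊x⌋₊ = ∑ q ∈ Ico a b, f q := by
  intro b hab
  induction b, hab using Nat.le_induction with
  | base => simp
  | succ M hM ih =>
    rw [← intervalIntegral.integral_add_adjacent_intervals (ii_floor f hf a M)
      (ii_floor f hf M ((M + 1 : ℕ) : ℝ)), ih, Finset.sum_Ico_succ_top hM]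
    congr 1
    have h2 : ∫ x in (M : ℝ)..((M + 1 : ℕ) : ℝ), f ⌊x⌋₊ =
        ∫ x in (M : ℝ)..((M + 1 : ℕ) : ℝ), f M := by
      apply intervalIntegral.integral_congr_ae
      have h3 : ∀ᵐ x : ℝ, x ≠ ((M + 1 : ℕ) : ℝ) := by
        rw [ae_iff]
        simp
      filter_upwards [h3] with x hx hx2
      rw [Set.uIoc_of_le (by push_cast; linarith)] at hx2
      have h4 : ⌊x⌋₊ = M := by
        rw [Nat.floor_eq_iff (by have := hx2.1; have : (0 : ℝ) ≤ M := Nat.cast_nonneg M; linarith)]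
        refine ⟨hx2.1.le, ?_⟩
        have h5 := lt_of_le_of_ne hx2.2 hx
        push_cast at h5
        exact h5
      rw [h4]
    rw [h2, intervalIntegral.integral_const]
    push_cast
    simp

/-- the integral over `(X, Y]` of a function of the integral part -/
theorem int_floor_le (f : ℕ → ℝ) (hf : ∀ q, 0 ≤ f q ∧ f q ≤ 1) {X Y : ℝ} (hX : 0 ≤ X) (hXY : X ≤ Y) :
    ∫ x in X..Y, f ⌊x⌋₊ ≤ ∑ q ∈ Icc ⌊X⌋₊ ⌊Y⌋₊, f q := by
  have h1 : ((⌊X⌋₊ : ℕ) : ℝ) ≤ X := Nat.floor_le hX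
  have h2 : Y ≤ ((⌊Y⌋₊ + 1 : ℕ) : ℝ) := by
    push_cast
    exact (Nat.lt_floor_add_one Y).le
  have h3 : ⌊X⌋₊ ≤ ⌊Y⌋₊ + 1 := (Nat.floor_le_floor hXY).trans (Nat.le_succ _)
  have h4 : ∫ x in X..Y, f ⌊x⌋₊ ≤ ∫ x in ((⌊X⌋₊ : ℕ) : ℝ)..((⌊Y⌋₊ + 1 : ℕ) : ℝ), f ⌊x⌋₊ := by
    refine intervalIntegral.integral_mono_interval h1 hXY h2 ?_ (ii_floor f hf _ _)
    exact Filter.Eventually.of_forall fun x => (hf _).1
  refine h4.trans (le_of_eq ?_)
  rw [int_floor f hf _ _ h3]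
  rfl

/-- change of variables in a dyadic block -/
theorem int_block {h α : ℝ} (hh : 0 < h) (hα : 0 < α) (N : ℕ) (hN : 1 ≤ N) (g : ℝ → ℝ) (hgm : Measurable g)
    (hg : ∀ x, 0 ≤ g x ∧ g x ≤ 1) :
    ∫ u in (N : ℝ)..(2 * N : ℝ), g (α * u ^ h) ≤
      (2 * N / (h * (α * (N : ℝ) ^ h))) * ∫ x in (α * (N : ℝ) ^ h)..(α * (2 * N : ℝ) ^ h), g x := by
  have hN1 : (1 : ℝ) ≤ N := by exact_mod_cast hN
  have hN0 : (0 : ℝ) < N := by linarith
  have hN2 : (N : ℝ) ≤ 2 * N := by linarith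
  have hX0 : 0 < α * (N : ℝ) ^ h := by positivity
  have hXY : α * (N : ℝ) ^ h ≤ α * (2 * N : ℝ) ^ h := by
    apply mul_le_mul_of_nonneg_left _ hα.le
    exact Real.rpow_le_rpow hN0.le hN2 hh.le
  rw [intervalIntegral.integral_of_le hXY, intervalIntegral.integral_of_le hN2]
  have himg : (fun u : ℝ => α * u ^ h) '' Set.Ioc (N : ℝ) (2 * N) =
      Set.Ioc (α * (N : ℝ) ^ h) (α * (2 * N : ℝ) ^ h) := by
    ext x
    constructor
    · rintro ⟨u, hu, rfl⟩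
      have hu0 : 0 < u := hN0.trans hu.1
      refine ⟨?_, ?_⟩
      · exact mul_lt_mul_of_pos_left (Real.rpow_lt_rpow hN0.le hu.1 hh) hα
      · exact mul_le_mul_of_nonneg_left (Real.rpow_le_rpow hu0.le hu.2 hh.le) hα.le
    · intro x_mem
      have hx0 : 0 < x := hX0.trans x_mem.1
      have e0 : ∀ y : ℝ, 0 < y → (y ^ h) ^ (1 / h) = y := by
        intro y hy
        rw [← Real.rpow_mul hy.le]
        have : h * (1 / h) = 1 := by field_simp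
        rw [this, Real.rpow_one]
      refine ⟨(x / α) ^ (1 / h), ⟨?_, ?_⟩, ?_⟩
      · have h1 : (N : ℝ) ^ h < x / α := by
          rw [lt_div_iff₀ hα]
          linarith [x_mem.1]
        calc (N : ℝ) = ((N : ℝ) ^ h) ^ (1 / h) := (e0 _ hN0).symm
          _ < _ := Real.rpow_lt_rpow (by positivity) h1 (by positivity)
      · have h1 : x / α ≤ (2 * N : ℝ) ^ h := by
          rw [div_le_iff₀ hα]
          linarith [x_mem.2]
        calc (x / α) ^ (1 / h) ≤ ((2 * N : ℝ) ^ h) ^ (1 / h) :=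
              Real.rpow_le_rpow (by positivity) h1 (by positivity)
          _ = _ := e0 _ (by positivity)
      · simp only
        rw [← Real.rpow_mul (by positivity)]
        have : 1 / h * h = 1 := by field_simp
        rw [this, Real.rpow_one]
        field_simp
  have hinj : Set.InjOn (fun u : ℝ => α * u ^ h) (Set.Ioc (N : ℝ) (2 * N)) := by
    intro u hu v hv huv
    simp only at huv
    have h1 := mul_left_cancel₀ hα.ne' huv
    exact (Real.rpow_left_inj (hN0.trans hu.1).le (hN0.trans hv.1).le hh.ne').1 h1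
  have hder : ∀ u ∈ Set.Ioc (N : ℝ) (2 * N), HasDerivWithinAt (fun u : ℝ => α * u ^ h)
      (α * (h * u ^ (h - 1))) (Set.Ioc (N : ℝ) (2 * N)) u := by
    intro u hu
    apply HasDerivAt.hasDerivWithinAt
    exact (Real.hasDerivAt_rpow_const (Or.inl (hN0.trans hu.1).ne')).const_mul α
  have hcv := integral_image_eq_integral_abs_deriv_smul measurableSet_Ioc hder hinj g
  rw [himg] at hcv
  rw [hcv]
  have hgi : IntegrableOn (fun u : ℝ => g (α * u ^ h)) (Set.Ioc (N : ℝ) (2 * N)) volume := by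
    refine Measure.integrableOn_of_bounded (M := 1) (by simp) (hgm.comp (by fun_prop)).aestronglyMeasurable ?_
    refine Filter.Eventually.of_forall fun u => ?_
    rw [Real.norm_eq_abs, abs_of_nonneg (hg _).1]
    exact (hg _).2
  -- bounds for the derivative
  have hlow : ∀ u ∈ Set.Ioc (N : ℝ) (2 * N), h * (α * (N : ℝ) ^ h) / (2 * N) ≤ |α * (h * u ^ (h - 1))| := by
    intro u hu
    have hu0 : 0 < u := hN0.trans hu.1
    rw [abs_of_pos (by positivity)]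
    have h1 : u ^ (h - 1) = u ^ h / u := Real.rpow_sub_one hu0.ne' h
    rw [h1]
    have h2 : (N : ℝ) ^ h ≤ u ^ h := Real.rpow_le_rpow hN0.le hu.1.le hh.le
    have h3 : (N : ℝ) ^ h / (2 * N) ≤ u ^ h / u := by
      apply div_le_div₀ (by positivity) h2 hu0 hu.2
    calc h * (α * (N : ℝ) ^ h) / (2 * N) = α * (h * ((N : ℝ) ^ h / (2 * N))) := by ring
      _ ≤ _ := by gcongr
  have hup : ∀ u ∈ Set.Ioc (N : ℝ) (2 * N), |α * (h * u ^ (h - 1))| ≤ α * (h * ((2 * N : ℝ) ^ h / N)) := by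
    intro u hu
    have hu0 : 0 < u := hN0.trans hu.1
    rw [abs_of_pos (by positivity)]
    have h1 : u ^ (h - 1) = u ^ h / u := Real.rpow_sub_one hu0.ne' h
    rw [h1]
    have h2 : u ^ h ≤ (2 * N : ℝ) ^ h := Real.rpow_le_rpow hu0.le hu.2 hh.le
    have h3 : u ^ h / u ≤ (2 * N : ℝ) ^ h / N := by
      apply div_le_div₀ (by positivity) h2 hN0 hu.1.le
    gcongr
  have hmeas : Measurable fun u : ℝ => |α * (h * u ^ (h - 1))| := by
    have e : (fun u : ℝ => |α * (h * u ^ (h - 1))|) = fun u => ‖α * (h * u ^ (h - 1))‖ := rfl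
    rw [e]
    apply Measurable.norm
    fun_prop
  have hint2 : IntegrableOn (fun u : ℝ => |α * (h * u ^ (h - 1))| • g (α * u ^ h))
      (Set.Ioc (N : ℝ) (2 * N)) volume := by
    refine Measure.integrableOn_of_bounded (M := α * (h * ((2 * N : ℝ) ^ h / N))) (by simp) ?_ ?_
    · apply Measurable.aestronglyMeasurable
      simp only [smul_eq_mul]
      exact hmeas.mul (hgm.comp (by fun_prop))
    · refine (ae_restrict_iff' measurableSet_Ioc).2 (Filter.Eventually.of_forall fun u hu => ?_)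
      rw [norm_smul, Real.norm_eq_abs, abs_abs, Real.norm_eq_abs, abs_of_nonneg (hg _).1]
      calc _ ≤ α * (h * ((2 * N : ℝ) ^ h / N)) * 1 := by
            have := (hg (α * u ^ h)).1
            exact mul_le_mul (hup u hu) (hg _).2 this (by positivity)
        _ = _ := mul_one _
  have hpt : ∀ u ∈ Set.Ioc (N : ℝ) (2 * N), g (α * u ^ h) ≤
      (2 * N / (h * (α * (N : ℝ) ^ h))) * (|α * (h * u ^ (h - 1))| • g (α * u ^ h)) := by
    intro u hu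
    have h1 := hlow u hu
    have h2 := (hg (α * u ^ h)).1
    rw [smul_eq_mul, ← mul_assoc]
    have h3 : 1 ≤ (2 * N / (h * (α * (N : ℝ) ^ h))) * |α * (h * u ^ (h - 1))| := by
      have h4 : (2 * N / (h * (α * (N : ℝ) ^ h))) * (h * (α * (N : ℝ) ^ h) / (2 * N)) = 1 := by
        field_simp
      calc (1 : ℝ) = (2 * N / (h * (α * (N : ℝ) ^ h))) * (h * (α * (N : ℝ) ^ h) / (2 * N)) := h4.symm
        _ ≤ _ := mul_le_mul_of_nonneg_left h1 (by positivity)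
    calc g (α * u ^ h) = 1 * g (α * u ^ h) := (one_mul _).symm
      _ ≤ _ := mul_le_mul_of_nonneg_right h3 h2
  rw [← integral_const_mul]
  exact setIntegral_mono_on hgi (hint2.const_mul _) measurableSet_Ioc hpt

/-- **sampling in dyadic blocks** -/
theorem samp {h c : ℝ} (hh : 0 < h) (hc0 : 0 < c) (_hc1 : c ≤ 1) (hUS : US h c) (b : ℕ → ℕ → ℝ)
    (hb : ∀ j q, 0 ≤ b j q ∧ b j q ≤ 1) :
    ∀ᵐ α : ℝ, 0 < α → ∀ᶠ N : ℕ in atTop, ∀ j : ℕ, (j : ℝ) ≤ (N : ℝ) ^ c →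
      ∑ n ∈ Ioc N (2 * N), b j ⌊α * (n : ℝ) ^ h⌋₊ ≤
        (2 * N / (h * (α * (N : ℝ) ^ h))) *
          ∑ q ∈ Icc ⌊α * (N : ℝ) ^ h⌋₊ ⌊α * (2 * N : ℝ) ^ h⌋₊, b j q + 3 * (N : ℝ) ^ (1 - c) := by
  have h0 := hUS (fun j q => ((b j q : ℝ) : ℂ)) (fun j q => by
    rw [Complex.norm_real, Real.norm_eq_abs, abs_of_nonneg (hb j q).1]
    exact (hb j q).2)
  filter_upwards [h0] with α hα hα0
  have h1 := hα hα0
  have h2 : ∀ᶠ N : ℕ in atTop, ∀ j : ℕ, (j : ℝ) ≤ ((2 * N : ℕ) : ℝ) ^ c →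
      ‖∑ n ∈ Icc 1 (2 * N), ((b j ⌊α * (n : ℝ) ^ h⌋₊ : ℝ) : ℂ) -
        ∫ u in (0 : ℝ)..((2 * N : ℕ) : ℝ), ((b j ⌊α * u ^ h⌋₊ : ℝ) : ℂ)‖ ≤ ((2 * N : ℕ) : ℝ) ^ (1 - c) :=
    (tendsto_id.const_mul_atTop' (by norm_num : 0 < 2)).eventually h1
  filter_upwards [h1, h2, eventually_ge_atTop 1] with N h3 h4 hN1 j hj
  have hN1' : (1 : ℝ) ≤ N := by exact_mod_cast hN1
  have hN0 : (0 : ℝ) < N := by linarith
  have h5 := h3 j hj
  have h6 := h4 j (hj.trans (Real.rpow_le_rpow hN0.le (by push_cast; linarith) hc0.le))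
  -- to real numbers
  have e1 : ∀ M : ℕ, ‖∑ n ∈ Icc 1 M, ((b j ⌊α * (n : ℝ) ^ h⌋₊ : ℝ) : ℂ) -
        ∫ u in (0 : ℝ)..(M : ℝ), ((b j ⌊α * u ^ h⌋₊ : ℝ) : ℂ)‖ =
      |∑ n ∈ Icc 1 M, b j ⌊α * (n : ℝ) ^ h⌋₊ - ∫ u in (0 : ℝ)..(M : ℝ), b j ⌊α * u ^ h⌋₊| := by
    intro M
    rw [intervalIntegral.integral_ofReal, ← Complex.ofReal_sum, ← Complex.ofReal_sub, Complex.norm_real,
      Real.norm_eq_abs]
  rw [e1] at h5 h6
  have h7 := (abs_le.1 h5).1
  have h8 := (abs_le.1 h6).2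
  have hII : ∀ x y : ℝ, IntervalIntegrable (fun u : ℝ => b j ⌊α * u ^ h⌋₊) volume x y := by
    intro x y
    rw [intervalIntegrable_iff]
    refine Measure.integrableOn_of_bounded (M := 1) (by simp) ?_ (Filter.Eventually.of_forall fun u => ?_)
    · have hm : Measurable fun u : ℝ => α * u ^ h := by fun_prop
      exact ((meas_floor (b j)).comp hm).aestronglyMeasurable
    · rw [Real.norm_eq_abs, abs_of_nonneg (hb _ _).1]
      exact (hb _ _).2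
  have e2 : ∫ u in (0 : ℝ)..((2 * N : ℕ) : ℝ), b j ⌊α * u ^ h⌋₊ =
      (∫ u in (0 : ℝ)..(N : ℝ), b j ⌊α * u ^ h⌋₊) + ∫ u in (N : ℝ)..(2 * N : ℝ), b j ⌊α * u ^ h⌋₊ := by
    push_cast
    exact (intervalIntegral.integral_add_adjacent_intervals (hII _ _) (hII _ _)).symm
  have e3 : ∑ n ∈ Icc 1 (2 * N), b j ⌊α * (n : ℝ) ^ h⌋₊ =
      ∑ n ∈ Icc 1 N, b j ⌊α * (n : ℝ) ^ h⌋₊ + ∑ n ∈ Ioc N (2 * N), b j ⌊α * (n : ℝ) ^ h⌋₊ := by
    rw [← Finset.sum_union]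
    · congr 1
      ext n
      simp only [mem_union, mem_Icc, mem_Ioc]
      omega
    · rw [Finset.disjoint_left]
      intro n hn
      simp only [mem_Icc, mem_Ioc] at hn ⊢
      omega
  have h9 : ∫ u in (N : ℝ)..(2 * N : ℝ), b j ⌊α * u ^ h⌋₊ ≤
      (2 * N / (h * (α * (N : ℝ) ^ h))) * ∫ x in (α * (N : ℝ) ^ h)..(α * (2 * N : ℝ) ^ h), b j ⌊x⌋₊ :=
    int_block hh hα0 N hN1 (fun x => b j ⌊x⌋₊) (meas_floor (b j)) (fun x => hb j _)
  have h10 : ∫ x in (α * (N : ℝ) ^ h)..(α * (2 * N : ℝ) ^ h), b j ⌊x⌋₊ ≤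
      ∑ q ∈ Icc ⌊α * (N : ℝ) ^ h⌋₊ ⌊α * (2 * N : ℝ) ^ h⌋₊, b j q := by
    refine int_floor_le (b j) (hb j) (by positivity) ?_
    apply mul_le_mul_of_nonneg_left _ hα0.le
    exact Real.rpow_le_rpow hN0.le (by linarith) hh.le
  have h11 : (2 * N / (h * (α * (N : ℝ) ^ h))) * ∫ x in (α * (N : ℝ) ^ h)..(α * (2 * N : ℝ) ^ h), b j ⌊x⌋₊ ≤
      (2 * N / (h * (α * (N : ℝ) ^ h))) *
        ∑ q ∈ Icc ⌊α * (N : ℝ) ^ h⌋₊ ⌊α * (2 * N : ℝ) ^ h⌋₊, b j q :=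
    mul_le_mul_of_nonneg_left h10 (by positivity)
  have h12 : ((2 * N : ℕ) : ℝ) ^ (1 - c) ≤ 2 * (N : ℝ) ^ (1 - c) := by
    push_cast
    rw [Real.mul_rpow (by norm_num) hN0.le]
    have : (2 : ℝ) ^ (1 - c) ≤ 2 ^ (1 : ℝ) := Real.rpow_le_rpow_of_exponent_le (by norm_num) (by linarith)
    rw [Real.rpow_one] at this
    gcongr
  linarith

end Pool.Agent.D0H40.TS
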