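import Pool.Agent.D0H40.TS.Samp

/-! The tail estimate along `⌊α n ^ h⌋`. -/

set_option autoImplicit false

namespace Pool.Agent.D0H40.TS

open Finset MeasureTheory Filter Topology

/-- a tail estimate on average over all `q` -/
structure TailD (b0 : ℕ) (C B : ℝ) (cnt : ℕ → ℕ → ℝ → ℝ → ℕ) : Prop where
  C0 : 0 ≤ C
  B0 : 0 ≤ B
  le : ∀ q k T r, cnt q k T r ≤ q
  mono : ∀ q k k' T T' r r', k' ≤ k → T ≤ T' → r ≤ r' → cnt q k T r ≤ cnt q k' T' r'
  tail : ∀ (Q : ℕ) (T r : ℝ) (k : ℕ), 1 ≤ Q → 0 ≤ T → r ≤ 1 / 100 →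
    600 * r * (1 + Real.log Q) ≤ k → ((∑ q ∈ Icc 2 Q, cnt q k T r : ℕ) : ℝ) ≤
      C * (2 + T) ^ b0 * (1 + Real.log Q) ^ B * ((Q : ℝ) ^ 2 * Real.exp (-(k : ℝ) / 500))

/-- the functions that are sampled -/
noncomputable def bb (cnt : ℕ → ℕ → ℝ → ℝ → ℕ) (j q : ℕ) : ℝ :=
  (cnt q (Nat.unpair j).1 ((Nat.unpair (Nat.unpair j).2).1 : ℝ)
    (1 / ((Nat.unpair (Nat.unpair j).2).2 : ℝ)) : ℝ) / q

theorem bb_pair (cnt : ℕ → ℕ → ℝ → ℝ → ℕ) (k T i q : ℕ) :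
    bb cnt (Nat.pair k (Nat.pair T i)) q = (cnt q k (T : ℝ) (1 / (i : ℝ)) : ℝ) / q := by
  unfold bb
  simp only [Nat.unpair_pair]

variable {b0 : ℕ} {C B : ℝ} {cnt : ℕ → ℕ → ℝ → ℝ → ℕ}

theorem TailD.frac (D : TailD b0 C B cnt) (q k : ℕ) (T r : ℝ) :
    0 ≤ (cnt q k T r : ℝ) / q ∧ (cnt q k T r : ℝ) / q ≤ 1 := by
  refine ⟨by positivity, ?_⟩
  apply div_le_one_of_le₀ _ (Nat.cast_nonneg q)
  exact_mod_cast D.le q k T r

theorem pair_le {a b : ℕ} {M : ℝ} (ha : (a : ℝ) ≤ M) (hb : (b : ℝ) ≤ M) :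
    ((Nat.pair a b : ℕ) : ℝ) ≤ (M + 1) ^ 2 := by
  have h1 := (Nat.pair_lt_max_add_one_sq a b).le
  have h2 : ((Nat.pair a b : ℕ) : ℝ) ≤ ((max a b + 1 : ℕ) : ℝ) ^ 2 := by exact_mod_cast h1
  refine h2.trans ?_
  have h3 : ((max a b + 1 : ℕ) : ℝ) ≤ M + 1 := by
    push_cast
    have := max_le ha hb
    linarith
  gcongr

/-! numerical inequalities -/

theorem nu1 {h r l : ℝ} (hh : 0 < h) (hr : 0 ≤ r) (hl : 0 ≤ l) :
    600 * r * ((h + 1) * (1 + l)) ≤ 700 * (h + 2) * r * (1 + l) := by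
  have e : 700 * (h + 2) * r * (1 + l) = 600 * r * ((h + 1) * (1 + l)) +
    r * (1 + l) * (100 * h + 800) := by ring
  have : 0 ≤ r * (1 + l) * (100 * h + 800) := by positivity
  linarith

theorem nu2 {h r l : ℝ} (hh : 0 < h) (hr : 0 ≤ r) (hl : 0 ≤ l) :
    612 * r * ((h + 1) * (1 + l)) ≤ 700 * (h + 2) * r * (1 + l) := by
  have e : 700 * (h + 2) * r * (1 + l) = 612 * r * ((h + 1) * (1 + l)) +
    r * (1 + l) * (88 * h + 788) := by ring
  have : 0 ≤ r * (1 + l) * (88 * h + 788) := by positivity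
  linarith

theorem nu3 {h l t LC LQ BL b B : ℝ} (hh : 0 < h) (hl : 1 ≤ l) (ht : 0 ≤ t) (hb : 0 ≤ b) (hB : 0 ≤ B)
    (h1 : LC ≤ l) (h2 : LQ ≤ (h + 1) * l) (h3 : BL ≤ B * ((h + 1) * l)) :
    500 * (LC + b * t + BL + 2 * LQ) <
      (500 * (1 + b + 2 * B * (h + 1) + 4 * (h + 1)) + 1) * (l + t) := by
  have e : (500 * (1 + b + 2 * B * (h + 1) + 4 * (h + 1)) + 1) * (l + t) =
    500 * (l + b * t + B * ((h + 1) * l) + 2 * ((h + 1) * l)) +
    (500 * (t + b * l + B * (h + 1) * (l + 2 * t) + (h + 1) * (2 * l + 4 * t)) + l + t) := by ring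
  have hl0 : 0 < l := by linarith
  have : 0 < 500 * (t + b * l + B * (h + 1) * (l + 2 * t) + (h + 1) * (2 * l + 4 * t)) + l + t := by
    positivity
  rw [e]
  linarith

theorem nu4 {c l t : ℝ} (hc : c ≤ 1) (ht : 0 ≤ t) (h : c / 16 * l < t) :
    c / 4 * (l + t) ≤ 5 * t := by
  have e : c / 4 * (l + t) = 4 * (c / 16 * l) + c / 4 * t := by ring
  have : c / 4 * t ≤ 1 / 4 * t := by gcongr
  linarith

theorem nu5 {t b d : ℝ} (ht : 0 ≤ t) (hb : 0 ≤ b) (h : d ≤ 5 * t) : 0 ≤ t * (5 + b) + -d := by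
  have : 0 ≤ t * b := by positivity
  have e : t * (5 + b) = 5 * t + t * b := by ring
  linarith

theorem nu6 {K h l : ℝ} (hK : 0 < K) (hh : 0 < h) (hl : 1 ≤ l) :
    100 ≤ (2 * K + 1224 * (h + 1) + 100) * l ∧ K * (2 * l) ≤ (2 * K + 1224 * (h + 1) + 100) * l ∧
    612 * ((h + 1) * (1 + l)) ≤ (2 * K + 1224 * (h + 1) + 100) * l := by
  have hl0 : 0 < l := by linarith
  have h1 : 0 ≤ K * l := by positivity
  have h2 : 0 ≤ (h + 1) * l := by positivity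
  have e : (2 * K + 1224 * (h + 1) + 100) * l = K * (2 * l) + 1224 * ((h + 1) * l) + 100 * l := by ring
  have e2 : K * (2 * l) = 2 * (K * l) := by ring
  have h3 : (h + 1) * (1 + l) ≤ (h + 1) * (2 * l) := by
    apply mul_le_mul_of_nonneg_left _ (by linarith)
    linarith
  have e3 : (h + 1) * (2 * l) = 2 * ((h + 1) * l) := by ring
  refine ⟨?_, ?_, ?_⟩ <;> linarith

theorem nu7 {ρ i : ℝ} (h1 : ρ ≤ 1 / 100) (h3 : 1 ≤ ρ * (i + 1)) : 1 ≤ 1.02 * ρ * i := by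
  have e : ρ * (i + 1) = ρ * i + ρ := by ring
  have e2 : 1.02 * ρ * i = 1.02 * (ρ * i) := by ring
  rw [e2]
  linarith

theorem nu8 {M : ℝ} (hM : 100 ≤ M) : ((M + 1) ^ 2 + 1) ^ 2 ≤ M ^ 5 := by
  have g1 : (M + 1) ^ 2 + 1 ≤ 2 * M ^ 2 := by nlinarith
  calc ((M + 1) ^ 2 + 1) ^ 2 ≤ (2 * M ^ 2) ^ 2 := by gcongr
    _ = 4 * M ^ 4 := by ring
    _ ≤ M * M ^ 4 := by gcongr; linarith
    _ = M ^ 5 := by ring

theorem nu9 {M k : ℝ} (hM : 0 < M) (hk : k ≤ M) : k ≤ (M + 1) ^ 2 := by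
  have e : (M + 1) ^ 2 = M ^ 2 + 2 * M + 1 := by ring
  have : 0 ≤ M ^ 2 := by positivity
  linarith

theorem nu10 {c l : ℝ} (hc : 0 < c) (hl : 0 ≤ l) : c / 4 * (2 * l) ≤ c * l := by
  have := mul_nonneg hc.le hl
  have e : c / 4 * (2 * l) = (c * l) / 2 := by ring
  linarith

theorem nu11 {h l x : ℝ} (hh : 0 < h) (hx : x ≤ (h + 1) * l) : 1 + x ≤ (h + 1) * (1 + l) := by
  have e : (h + 1) * (1 + l) = (h + 1) * l + (h + 1) := by ring
  linarith

theorem nu12 {c l : ℝ} (hc1 : c ≤ 1) (hl : 0 ≤ l) : c / 16 * l ≤ l := by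
  have : c / 16 * l ≤ 1 / 16 * l := by gcongr
  linarith

/-- `cnt` vanishes for large `k` -/
theorem TailD.zero (D : TailD b0 C B cnt) {Q k : ℕ} {T r : ℝ} (hQ : 1 ≤ Q) (hT : 0 ≤ T)
    (hr : r ≤ 1 / 100) (hk : 600 * r * (1 + Real.log Q) ≤ k)
    (hk2 : 500 * (Real.log (1 + C) + b0 * Real.log (2 + T) + B * Real.log (1 + Real.log Q) +
      2 * Real.log Q) < k) : ∀ q ∈ Icc 2 Q, cnt q k T r = 0 := by
  have h1 := D.tail Q T r k hQ hT hr hk
  have hQ1 : (1 : ℝ) ≤ Q := by exact_mod_cast hQ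
  have hQ0 : (0 : ℝ) < Q := by linarith
  have hlQ : 0 ≤ Real.log Q := Real.log_nonneg hQ1
  have hC0 := D.C0
  have h2 : C * (2 + T) ^ b0 * (1 + Real.log Q) ^ B * ((Q : ℝ) ^ 2 * Real.exp (-(k : ℝ) / 500)) < 1 := by
    have h3 : C * (2 + T) ^ b0 * (1 + Real.log Q) ^ B * ((Q : ℝ) ^ 2 * Real.exp (-(k : ℝ) / 500)) ≤
        (1 + C) * (2 + T) ^ b0 * (1 + Real.log Q) ^ B * ((Q : ℝ) ^ 2 * Real.exp (-(k : ℝ) / 500)) := by
      gcongr
      linarith
    refine lt_of_le_of_lt h3 ?_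
    have e : (1 + C) * (2 + T) ^ b0 * (1 + Real.log Q) ^ B * ((Q : ℝ) ^ 2 * Real.exp (-(k : ℝ) / 500)) =
        Real.exp (Real.log (1 + C) + b0 * Real.log (2 + T) + B * Real.log (1 + Real.log Q) +
          2 * Real.log Q + -(k : ℝ) / 500) := by
      rw [Real.exp_add, Real.exp_add, Real.exp_add, Real.exp_add, Real.exp_log (by linarith)]
      have p2 : (0 : ℝ) < 2 + T := by linarith
      have p3 : (0 : ℝ) < 1 + Real.log Q := by linarith
      have e1 : Real.exp (b0 * Real.log (2 + T)) = (2 + T) ^ b0 := by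
        rw [Real.exp_nat_mul, Real.exp_log p2]
      have e2 : Real.exp (B * Real.log (1 + Real.log Q)) = (1 + Real.log Q) ^ B := by
        rw [Real.rpow_def_of_pos p3, mul_comm]
      have e3 : Real.exp (2 * Real.log Q) = (Q : ℝ) ^ 2 := by
        have := Real.exp_nat_mul (Real.log Q) 2
        push_cast at this
        rw [this, Real.exp_log hQ0]
      rw [e1, e2, e3]
      ring
    rw [e, Real.exp_lt_one_iff]
    linarith
  have h3 : ((∑ q ∈ Icc 2 Q, cnt q k T r : ℕ) : ℝ) < 1 := lt_of_le_of_lt h1 h2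
  have h4 : ∑ q ∈ Icc 2 Q, cnt q k T r < 1 := by exact_mod_cast h3
  have h5 : ∑ q ∈ Icc 2 Q, cnt q k T r = 0 := by omega
  exact fun q hq => Finset.sum_eq_zero_iff.1 h5 q hq

/-- **the tail estimate in the sparse sequence** -/
theorem sparse_tail {h c : ℝ} (hh : 0 < h) (hc0 : 0 < c) (hc1 : c ≤ 1) (hUS : US h c)
    (D : TailD b0 C B cnt) :
    ∃ δ A C' : ℝ, 0 < δ ∧ δ ≤ 1 / 500 ∧ 0 ≤ A ∧ 1 ≤ C' ∧ ∀ᵐ α : ℝ, 0 < α → ∃ N0 : ℕ, 3 ≤ N0 ∧
      ∀ N : ℕ, N0 ≤ N → (∀ n ∈ Ioc N (2 * N), 2 ≤ ⌊α * (n : ℝ) ^ h⌋₊) ∧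
      ∀ (T r : ℝ) (k : ℕ), 0 ≤ T → 0 ≤ r → r ≤ 1 / 100 →
        700 * (h + 2) * r * (1 + Real.log N) + 1 ≤ k →
        ∑ n ∈ Ioc N (2 * N), (cnt ⌊α * (n : ℝ) ^ h⌋₊ k T r : ℝ) / ⌊α * (n : ℝ) ^ h⌋₊ ≤
          C' * (2 + T) ^ A * (1 + Real.log N) ^ B * (N * Real.exp (-(δ * k))) := by
  have hC0 := D.C0
  have hB0 := D.B0
  set K1 : ℝ := 500 * (1 + b0 + 2 * B * (h + 1) + 4 * (h + 1)) + 1 with hK1
  have hK1a : 2500 ≤ K1 := by
    rw [hK1]
    have g1 : 0 ≤ 2 * B * (h + 1) := by positivity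
    have g2 : (0 : ℝ) ≤ b0 := Nat.cast_nonneg _
    linarith
  have hK10 : 0 < K1 := by linarith
  set δ : ℝ := c / (4 * K1) with hδ
  have hδ0 : 0 < δ := by positivity
  have hδK : δ * K1 = c / 4 := by
    rw [hδ]
    field_simp
  have hδ1 : δ ≤ 1 / 500 := by
    rw [hδ, div_le_div_iff₀ (by positivity) (by norm_num)]
    linarith
  set C1 : ℝ := 4 / h * C * 2 ^ b0 * (h + 1) ^ B * ((2 : ℝ) ^ h) ^ 2 with hC1
  have hC10 : 0 ≤ C1 := by positivity
  refine ⟨δ, 5 + b0, C1 + 3, hδ0, hδ1, by positivity, by linarith, ?_⟩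
  filter_upwards [samp hh hc0 hc1 hUS (bb cnt) (fun j q => D.frac q _ _ _)] with α hα hα0
  have hs := hα hα0
  -- eventual facts
  have tN : Tendsto (fun N : ℕ => (N : ℝ)) atTop atTop := tendsto_natCast_atTop_atTop
  have tL : Tendsto (fun N : ℕ => Real.log (N : ℝ)) atTop atTop := Real.tendsto_log_atTop.comp tN
  have E1 : ∀ᶠ N : ℕ in atTop, 4 ≤ α * (N : ℝ) ^ h :=
    (((tendsto_rpow_atTop hh).comp tN).const_mul_atTop hα0).eventually (eventually_ge_atTop 4)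
  have E2 : ∀ᶠ N : ℕ in atTop, Real.log α + h * Real.log 2 ≤ Real.log (N : ℝ) :=
    tL.eventually (eventually_ge_atTop _)
  have E3 : ∀ᶠ N : ℕ in atTop, 1 ≤ Real.log (N : ℝ) := tL.eventually (eventually_ge_atTop _)
  have E4 : ∀ᶠ N : ℕ in atTop, Real.log (1 + C) ≤ Real.log (N : ℝ) := tL.eventually (eventually_ge_atTop _)
  set K2 : ℝ := 2 * K1 + 1224 * (h + 1) + 100 with hK2
  have hK20 : 0 < K2 := by positivity
  have E5 : ∀ᶠ N : ℕ in atTop, K2 * Real.log (N : ℝ) ≤ (N : ℝ) ^ (c / 16) := by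
    have h1 := (isLittleO_log_rpow_atTop (r := c / 16) (by positivity)).def (c := 1 / K2) (by positivity)
    have h2 := tN.eventually h1
    filter_upwards [h2, E3] with N hN hN3
    rw [Real.norm_eq_abs, Real.norm_eq_abs, abs_of_nonneg (by linarith), abs_of_nonneg (by positivity)] at hN
    calc K2 * Real.log (N : ℝ) ≤ K2 * (1 / K2 * (N : ℝ) ^ (c / 16)) := by gcongr
      _ = _ := by field_simp
  obtain ⟨N0, hN0⟩ := eventually_atTop.1
    (((((hs.and E1).and E2).and E3).and E4).and (E5.and (eventually_ge_atTop 3)))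
  refine ⟨max N0 3, le_max_right _ _, fun N hN => ?_⟩
  obtain ⟨⟨⟨⟨⟨hsN, hE1⟩, hE2⟩, hE3⟩, hE4⟩, hE5, hN3⟩ := hN0 N ((le_max_left _ _).trans hN)
  have hNr : (3 : ℝ) ≤ N := by exact_mod_cast hN3
  have hNp : (0 : ℝ) < N := by linarith
  set l : ℝ := Real.log (N : ℝ) with hl
  set X : ℝ := α * (N : ℝ) ^ h with hX
  have hX0 : 0 < X := by linarith
  have eY : α * (2 * N : ℝ) ^ h = 2 ^ h * X := by
    rw [hX, Real.mul_rpow (by norm_num) hNp.le]
    ring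
  rw [eY] at hsN
  set Q : ℕ := ⌊2 ^ h * X⌋₊ with hQ
  have h2h : (1 : ℝ) ≤ 2 ^ h := Real.one_le_rpow (by norm_num) hh.le
  have hYX : X ≤ 2 ^ h * X := le_mul_of_one_le_left hX0.le h2h
  have hfl : 2 ≤ ⌊X⌋₊ := by
    apply Nat.le_floor
    push_cast
    linarith
  have hflX : X / 2 ≤ (⌊X⌋₊ : ℝ) := by
    have := Nat.lt_floor_add_one X
    linarith
  have hXQ : ⌊X⌋₊ ≤ Q := Nat.floor_le_floor hYX
  have hQ1 : 1 ≤ Q := by omega
  have hQr : (1 : ℝ) ≤ Q := by exact_mod_cast hQ1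
  have hQY : (Q : ℝ) ≤ 2 ^ h * X := Nat.floor_le (by positivity)
  have hlQ0 : 0 ≤ Real.log Q := Real.log_nonneg hQr
  have hlQ : Real.log Q ≤ (h + 1) * l := by
    have h1 : Real.log Q ≤ Real.log (2 ^ h * X) := Real.log_le_log (by linarith) hQY
    have h2 : Real.log (2 ^ h * X) = h * Real.log 2 + (Real.log α + h * l) := by
      rw [Real.log_mul (by positivity) (by positivity), Real.log_rpow (by norm_num), hX,
        Real.log_mul (by positivity) (by positivity), Real.log_rpow hNp]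
    have h3 : (h + 1) * l = h * l + l := by ring
    rw [h2] at h1
    linarith
  have hlQ1 : 1 + Real.log Q ≤ (h + 1) * (1 + l) := nu11 hh hlQ
  have hqn : ∀ n ∈ Ioc N (2 * N), 2 ≤ ⌊α * (n : ℝ) ^ h⌋₊ ∧ ⌊α * (n : ℝ) ^ h⌋₊ ≤ Q := by
    intro n hn
    rw [mem_Ioc] at hn
    have h1 : (N : ℝ) ≤ n := by exact_mod_cast hn.1.le
    have h2 : (n : ℝ) ≤ 2 * N := by exact_mod_cast hn.2
    refine ⟨hfl.trans (Nat.floor_le_floor ?_), Nat.floor_le_floor ?_⟩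
    · exact mul_le_mul_of_nonneg_left (Real.rpow_le_rpow hNp.le h1 hh.le) hα0.le
    · rw [← eY]
      exact mul_le_mul_of_nonneg_left (Real.rpow_le_rpow (by linarith) h2 hh.le) hα0.le
  refine ⟨fun n hn => (hqn n hn).1, fun T r k hT hr0 hr hk => ?_⟩
  have hl0 : 0 ≤ l := by linarith
  have h2T : (1 : ℝ) ≤ 2 + T := by linarith
  have hlT : 0 ≤ Real.log (2 + T) := Real.log_nonneg h2T
  have hLB : (1 : ℝ) ≤ (1 + l) ^ B := Real.one_le_rpow (by linarith) hB0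
  have hb0r : (0 : ℝ) ≤ b0 := Nat.cast_nonneg _
  -- the trivial bound
  have htriv : ∑ n ∈ Ioc N (2 * N), (cnt ⌊α * (n : ℝ) ^ h⌋₊ k T r : ℝ) / ⌊α * (n : ℝ) ^ h⌋₊ ≤ N := by
    calc _ ≤ ∑ _n ∈ Ioc N (2 * N), (1 : ℝ) := Finset.sum_le_sum fun n _ => (D.frac _ _ _ _).2
      _ = N := by
          rw [Finset.sum_const, Nat.card_Ioc, nsmul_eq_mul, mul_one]
          congr 1
          omega
  by_cases hcase : K1 * (l + Real.log (2 + T)) ≤ k
  · -- all terms vanish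
    have hz : ∀ q ∈ Icc 2 Q, cnt q k T r = 0 := by
      refine D.zero hQ1 hT hr ?_ ?_
      · calc 600 * r * (1 + Real.log Q) ≤ 600 * r * ((h + 1) * (1 + l)) := by gcongr
          _ ≤ 700 * (h + 2) * r * (1 + l) := nu1 hh hr0 hl0
          _ ≤ k := by linarith
      · refine lt_of_lt_of_le ?_ hcase
        have g1 : Real.log (1 + Real.log Q) ≤ Real.log Q := by
          have := Real.log_le_sub_one_of_pos (show 0 < 1 + Real.log Q by linarith)
          linarith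
        have g2 : B * Real.log (1 + Real.log Q) ≤ B * ((h + 1) * l) :=
          mul_le_mul_of_nonneg_left (g1.trans hlQ) hB0
        rw [hK1]
        exact nu3 hh hE3 hlT hb0r hB0 hE4 hlQ g2
    have : ∑ n ∈ Ioc N (2 * N), (cnt ⌊α * (n : ℝ) ^ h⌋₊ k T r : ℝ) / ⌊α * (n : ℝ) ^ h⌋₊ = 0 := by
      refine Finset.sum_eq_zero fun n hn => ?_
      rw [hz _ (mem_Icc.2 (hqn n hn)), Nat.cast_zero, zero_div]
    rw [this]
    positivity
  push Not at hcase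
  by_cases hbig : (N : ℝ) ^ (c / 16) < 2 + T
  · -- large heights
    refine htriv.trans ?_
    have h1 : c / 16 * l < Real.log (2 + T) := by
      have := Real.log_lt_log (by positivity) hbig
      rwa [Real.log_rpow hNp] at this
    have h2 : δ * k ≤ 5 * Real.log (2 + T) := by
      have h3 : δ * k ≤ δ * (K1 * (l + Real.log (2 + T))) := mul_le_mul_of_nonneg_left hcase.le hδ0.le
      have h4 : δ * (K1 * (l + Real.log (2 + T))) = c / 4 * (l + Real.log (2 + T)) := by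
        rw [← mul_assoc, hδK]
      have h5 := nu4 hc1 hlT h1
      linarith
    have h3 : 1 ≤ (2 + T) ^ (5 + (b0 : ℝ)) * Real.exp (-(δ * k)) := by
      rw [Real.rpow_def_of_pos (by linarith), ← Real.exp_add]
      exact Real.one_le_exp (nu5 hlT hb0r h2)
    calc (N : ℝ) = 1 * 1 * (N * 1) := by ring
      _ ≤ (C1 + 3) * (1 + l) ^ B * (N * ((2 + T) ^ (5 + (b0 : ℝ)) * Real.exp (-(δ * k)))) := by
          gcongr
          linarith
      _ = _ := by ring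
  push Not at hbig
  -- the sampled case
  set M : ℝ := (N : ℝ) ^ (c / 16) with hM
  have hM100 : 100 ≤ M := by
    refine le_trans ?_ hE5
    rw [hK2]
    exact (nu6 hK10 hh hE3).1
  have hM0 : 0 < M := by linarith
  set ρ : ℝ := max r (1 / M) with hρ
  have hρ0 : 0 < ρ := lt_of_lt_of_le (by positivity) (le_max_right _ _)
  have hρ1 : ρ ≤ 1 / 100 := by
    refine max_le hr ?_
    apply one_div_le_one_div_of_le (by norm_num) hM100
  set i : ℕ := ⌊1 / ρ⌋₊ with hi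
  have h1ρ : 100 ≤ 1 / ρ := by
    rw [le_div_iff₀ hρ0]
    linarith
  have hi1 : (i : ℝ) ≤ 1 / ρ := Nat.floor_le (by positivity)
  have hi2 : 1 / ρ < i + 1 := Nat.lt_floor_add_one _
  have hi3 : 100 ≤ i := by
    apply Nat.le_floor
    push_cast
    exact h1ρ
  have hi3r : (100 : ℝ) ≤ i := by exact_mod_cast hi3
  have hi0 : (0 : ℝ) < i := by linarith
  have hiM : (i : ℝ) ≤ M := by
    refine hi1.trans ?_
    rw [div_le_iff₀ hρ0]
    have : 1 / M ≤ ρ := le_max_right _ _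
    calc (1 : ℝ) = M * (1 / M) := by field_simp
      _ ≤ M * ρ := by gcongr
  have hri : r ≤ 1 / (i : ℝ) := by
    refine (le_max_left r (1 / M)).trans ?_
    rw [← hρ, le_div_iff₀ hi0]
    have := mul_le_mul_of_nonneg_left hi1 hρ0.le
    have e : ρ * (1 / ρ) = 1 := by field_simp
    linarith
  have hri2 : 1 / (i : ℝ) ≤ 1.02 * (r + 1 / M) := by
    have h1 : ρ ≤ r + 1 / M := max_le (by have : 0 ≤ 1 / M := by positivity
                                          linarith) (by linarith)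
    have h2 : 1 / (i : ℝ) ≤ 1.02 * ρ := by
      rw [div_le_iff₀ hi0]
      have h3 : 1 ≤ ρ * (i + 1) := by
        have := mul_le_mul_of_nonneg_left hi2.le hρ0.le
        have e : ρ * (1 / ρ) = 1 := by field_simp
        linarith
      exact nu7 hρ1 h3
    linarith
  have hri100 : 1 / (i : ℝ) ≤ 1 / 100 := one_div_le_one_div_of_le (by norm_num) hi3r
  -- the height
  set T' : ℕ := ⌈T⌉₊ with hT'
  have hT1 : T ≤ T' := Nat.le_ceil T
  have hT2 : (T' : ℝ) ≤ T + 1 := (Nat.ceil_lt_add_one hT).le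
  have hTM : (T' : ℝ) ≤ M := by linarith
  -- the number of zeros
  have hkM : (k : ℝ) ≤ M := by
    have h1 : Real.log (2 + T) ≤ l := by
      have g1 : Real.log (2 + T) ≤ Real.log M := Real.log_le_log (by linarith) hbig
      rw [hM, Real.log_rpow hNp] at g1
      exact g1.trans (nu12 hc1 hl0)
    have h2 : K1 * (l + Real.log (2 + T)) ≤ K1 * (2 * l) := by gcongr; linarith
    have h3 : K1 * (2 * l) ≤ K2 * l := by
      rw [hK2]
      exact (nu6 hK10 hh hE3).2.1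
    linarith
  have hkl : (k : ℝ) ≤ K1 * (2 * l) := by
    have h1 : Real.log (2 + T) ≤ l := by
      have g1 : Real.log (2 + T) ≤ Real.log M := Real.log_le_log (by linarith) hbig
      rw [hM, Real.log_rpow hNp] at g1
      exact g1.trans (nu12 hc1 hl0)
    have h2 : K1 * (l + Real.log (2 + T)) ≤ K1 * (2 * l) := by gcongr; linarith
    linarith
  have hk600 : 600 * (1 / (i : ℝ)) * (1 + Real.log Q) ≤ k := by
    have g0 : 612 * (1 / M) * ((h + 1) * (1 + l)) ≤ 1 := by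
      have g1 : 612 * ((h + 1) * (1 + l)) ≤ M := by
        refine le_trans ?_ hE5
        rw [hK2]
        exact (nu6 hK10 hh hE3).2.2
      calc 612 * (1 / M) * ((h + 1) * (1 + l)) = 612 * ((h + 1) * (1 + l)) / M := by ring
        _ ≤ 1 := by
            rw [div_le_one hM0]
            exact g1
    calc 600 * (1 / (i : ℝ)) * (1 + Real.log Q)
        ≤ 600 * (1.02 * (r + 1 / M)) * ((h + 1) * (1 + l)) := by gcongr
      _ = 612 * r * ((h + 1) * (1 + l)) + 612 * (1 / M) * ((h + 1) * (1 + l)) := by ring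
      _ ≤ 700 * (h + 2) * r * (1 + l) + 1 := add_le_add (nu2 hh hr0 hl0) g0
      _ ≤ k := hk
  -- the index
  set j : ℕ := Nat.pair k (Nat.pair T' i) with hj
  have hjN : (j : ℝ) ≤ (N : ℝ) ^ c := by
    have h1 := pair_le hTM hiM
    have h2 : (k : ℝ) ≤ (M + 1) ^ 2 := nu9 hM0 hkM
    have h3 := pair_le h2 h1
    have h4 : ((M + 1) ^ 2 + 1) ^ 2 ≤ M ^ 5 := nu8 hM100
    have h5 : M ^ 5 ≤ (N : ℝ) ^ c := by
      rw [hM, ← Real.rpow_natCast, ← Real.rpow_mul hNp.le]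
      apply Real.rpow_le_rpow_of_exponent_le (by linarith)
      push_cast
      linarith
    exact h3.trans (h4.trans h5)
  have hS := hsN j hjN
  -- the terms
  have hterm : ∑ n ∈ Ioc N (2 * N), (cnt ⌊α * (n : ℝ) ^ h⌋₊ k T r : ℝ) / ⌊α * (n : ℝ) ^ h⌋₊ ≤
      ∑ n ∈ Ioc N (2 * N), bb cnt j ⌊α * (n : ℝ) ^ h⌋₊ := by
    refine Finset.sum_le_sum fun n _ => ?_
    rw [hj, bb_pair]
    have := D.mono ⌊α * (n : ℝ) ^ h⌋₊ k k T T' r (1 / (i : ℝ)) le_rfl hT1 hri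
    gcongr
  have hsum : ∑ q ∈ Icc ⌊X⌋₊ Q, bb cnt j q ≤ 2 / X * (C * (2 + (T' : ℝ)) ^ b0 * (1 + Real.log Q) ^ B *
      ((Q : ℝ) ^ 2 * Real.exp (-(k : ℝ) / 500))) := by
    have h1 : ∀ q ∈ Icc ⌊X⌋₊ Q, bb cnt j q ≤ 2 / X * (cnt q k T' (1 / (i : ℝ)) : ℝ) := by
      intro q hq
      rw [mem_Icc] at hq
      rw [hj, bb_pair, div_eq_mul_inv, mul_comm]
      have h2 : X / 2 ≤ (q : ℝ) := hflX.trans (by exact_mod_cast hq.1)
      have h3 : ((q : ℝ))⁻¹ ≤ 2 / X := by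
        rw [inv_le_comm₀ (by linarith) (by positivity), inv_div]
        exact h2
      gcongr
    refine (Finset.sum_le_sum h1).trans ?_
    rw [← Finset.mul_sum]
    refine mul_le_mul_of_nonneg_left ?_ (by positivity)
    refine le_trans ?_ (D.tail Q T' (1 / (i : ℝ)) k hQ1 (Nat.cast_nonneg _) hri100 hk600)
    rw [← Nat.cast_sum]
    have h4 : ∑ q ∈ Icc ⌊X⌋₊ Q, cnt q k T' (1 / (i : ℝ)) ≤ ∑ q ∈ Icc 2 Q, cnt q k T' (1 / (i : ℝ)) := by
      refine Finset.sum_le_sum_of_subset ?_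
      exact Finset.Icc_subset_Icc hfl le_rfl
    exact_mod_cast h4
  refine hterm.trans (hS.trans ?_)
  have hmain : (2 * N / (h * X)) * ∑ q ∈ Icc ⌊X⌋₊ Q, bb cnt j q ≤
      C1 * (2 + T) ^ (5 + (b0 : ℝ)) * (1 + l) ^ B * (N * Real.exp (-(δ * k))) := by
    have g1 : (2 + (T' : ℝ)) ^ b0 ≤ 2 ^ b0 * (2 + T) ^ (5 + (b0 : ℝ)) := by
      have g2 : (2 + (T' : ℝ)) ≤ 2 * (2 + T) := by linarith
      have g3 : (2 + T) ^ b0 ≤ (2 + T) ^ (5 + (b0 : ℝ)) := by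
        rw [← Real.rpow_natCast]
        apply Real.rpow_le_rpow_of_exponent_le h2T
        linarith
      calc (2 + (T' : ℝ)) ^ b0 ≤ (2 * (2 + T)) ^ b0 := by gcongr
        _ = 2 ^ b0 * (2 + T) ^ b0 := by rw [mul_pow]
        _ ≤ _ := by gcongr
    have g4 : (1 + Real.log Q) ^ B ≤ (h + 1) ^ B * (1 + l) ^ B := by
      rw [← Real.mul_rpow (by positivity) (by positivity)]
      exact Real.rpow_le_rpow (by linarith) hlQ1 hB0
    have g5 : (Q : ℝ) ^ 2 ≤ ((2 : ℝ) ^ h) ^ 2 * X ^ 2 := by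
      rw [← mul_pow]
      gcongr
    have g6 : Real.exp (-(k : ℝ) / 500) ≤ Real.exp (-(δ * k)) := by
      apply Real.exp_le_exp.2
      have : δ * k ≤ 1 / 500 * k := by gcongr
      linarith
    calc (2 * N / (h * X)) * ∑ q ∈ Icc ⌊X⌋₊ Q, bb cnt j q
        ≤ (2 * N / (h * X)) * (2 / X * (C * (2 + (T' : ℝ)) ^ b0 * (1 + Real.log Q) ^ B *
          ((Q : ℝ) ^ 2 * Real.exp (-(k : ℝ) / 500)))) := by gcongr
      _ ≤ (2 * N / (h * X)) * (2 / X * (C * (2 ^ b0 * (2 + T) ^ (5 + (b0 : ℝ))) * ((h + 1) ^ B * (1 + l) ^ B) *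
          ((((2 : ℝ) ^ h) ^ 2 * X ^ 2) * Real.exp (-(δ * k))))) := by gcongr
      _ = _ := by
          rw [hC1]
          field_simp
          ring
  have herr : 3 * (N : ℝ) ^ (1 - c) ≤ 3 * (2 + T) ^ (5 + (b0 : ℝ)) * (1 + l) ^ B * (N * Real.exp (-(δ * k))) := by
    have g1 : (N : ℝ) ^ (1 - c) ≤ N * Real.exp (-(δ * k)) := by
      have g2 : δ * k ≤ c * l := by
        calc δ * k ≤ δ * (K1 * (2 * l)) := by gcongr
          _ = c / 4 * (2 * l) := by rw [← mul_assoc, hδK]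
          _ ≤ c * l := nu10 hc0 hl0
      have g3 : (N : ℝ) ^ (1 - c) = N * Real.exp (-(c * l)) := by
        rw [Real.rpow_def_of_pos hNp, hl]
        have : Real.log (N : ℝ) * (1 - c) = Real.log N + -(c * Real.log N) := by ring
        rw [this, Real.exp_add, Real.exp_log hNp]
      rw [g3]
      gcongr
    have g2 : (1 : ℝ) ≤ (2 + T) ^ (5 + (b0 : ℝ)) := Real.one_le_rpow h2T (by positivity)
    calc 3 * (N : ℝ) ^ (1 - c) ≤ 3 * 1 * 1 * (N * Real.exp (-(δ * k))) := by linarith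
      _ ≤ _ := by gcongr
  calc _ ≤ C1 * (2 + T) ^ (5 + (b0 : ℝ)) * (1 + l) ^ B * (N * Real.exp (-(δ * k))) +
        3 * (2 + T) ^ (5 + (b0 : ℝ)) * (1 + l) ^ B * (N * Real.exp (-(δ * k))) := add_le_add hmain herr
    _ = _ := by ring

end Pool.Agent.D0H40.TS
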